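import Pool.Agent.H15.NC.Cone
import Pool.Agent.H9.NC.Lin

/-!
# TensQ : tensor products preserve quasi-isomorphisms and short exact sequences
-/

set_option autoImplicit false

open scoped TensorProduct

noncomputable section

namespace NC

variable {k : Type} [Field k]

namespace SD

variable {X X' X'' Y Y' Y'' : SD k}

theorem Hom.QI.tensL {f : SD.Hom X X'} (hf : f.QI) (Y : SD k) : (f.tens (Hom.id Y)).QI := by
  obtain ⟨g, ⟨s, hs, hgf⟩, ⟨s', hs', hfg⟩⟩ := hf.exists_inverse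
  have key : ∀ (Z : SD k) (u : SD.Hom Z Z) (σ : Z.V →ₗ[k] Z.V) (_ : OddMap Z Z σ)
      (_ : IsHtp u (Hom.id Z) σ),
      IsHtp (u.tens (Hom.id Y)) (Hom.id (Z.tens Y)) (TensorProduct.map σ LinearMap.id) := by
    intro Z u σ h1 h2 v
    refine tens_ext (f := (u.tens (Hom.id Y)).f - LinearMap.id)
      (g := tD Z Y ∘ₗ TensorProduct.map σ LinearMap.id
        + TensorProduct.map σ LinearMap.id ∘ₗ tD Z Y) (fun x y => ?_) v
    have h3 : u.f x - x = Z.D (σ x) + σ (Z.D x) := h2 x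
    have h4 : σ (Z.E x) = - Z.E (σ x) := OddMap.E h1 x
    change u.f x ⊗ₜ y - x ⊗ₜ y = (Z.D (σ x) ⊗ₜ y + Z.E (σ x) ⊗ₜ Y.D y)
      + TensorProduct.map σ LinearMap.id (Z.D x ⊗ₜ y + Z.E x ⊗ₜ Y.D y)
    rw [map_add, TensorProduct.map_tmul, TensorProduct.map_tmul, LinearMap.id_apply,
      LinearMap.id_apply, h4, TensorProduct.neg_tmul, ← TensorProduct.sub_tmul, h3,
      TensorProduct.add_tmul]
    abel
  have e1 : IsHtp ((g.tens (Hom.id Y)).comp (f.tens (Hom.id Y))) (Hom.id (X.tens Y))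
      (TensorProduct.map s LinearMap.id) := by
    intro v
    have h1 := key X (g.comp f) s hs hgf v
    rw [← h1]
    congr 1
    exact tens_ext (f := ((g.tens (Hom.id Y)).comp (f.tens (Hom.id Y))).f)
      (g := ((g.comp f).tens (Hom.id Y)).f) (fun x y => rfl) v
  have e2 : IsHtp ((f.tens (Hom.id Y)).comp (g.tens (Hom.id Y))) (Hom.id (X'.tens Y))
      (TensorProduct.map s' LinearMap.id) := by
    intro v
    have h1 := key X' (f.comp g) s' hs' hfg v
    rw [← h1]
    congr 1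
    exact tens_ext (f := ((f.tens (Hom.id Y)).comp (g.tens (Hom.id Y))).f)
      (g := ((f.comp g).tens (Hom.id Y)).f) (fun x y => rfl) v
  exact Hom.QI.of_inverse e1 e2

theorem Hom.QI.tensR {f : SD.Hom Y Y'} (hf : f.QI) (X : SD k) : ((Hom.id X).tens f).QI := by
  obtain ⟨g, ⟨s, hs, hgf⟩, ⟨s', hs', hfg⟩⟩ := hf.exists_inverse
  have key : ∀ (Z : SD k) (u : SD.Hom Z Z) (σ : Z.V →ₗ[k] Z.V) (_ : IsHtp u (Hom.id Z) σ),
      IsHtp ((Hom.id X).tens u) (Hom.id (X.tens Z)) (TensorProduct.map X.E σ) := by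
    intro Z u σ h2 v
    refine tens_ext (f := ((Hom.id X).tens u).f - LinearMap.id)
      (g := tD X Z ∘ₗ TensorProduct.map X.E σ + TensorProduct.map X.E σ ∘ₗ tD X Z)
      (fun x y => ?_) v
    have h3 : u.f y - y = Z.D (σ y) + σ (Z.D y) := h2 y
    change x ⊗ₜ u.f y - x ⊗ₜ y = (X.D (X.E x) ⊗ₜ σ y + X.E (X.E x) ⊗ₜ Z.D (σ y))
      + TensorProduct.map X.E σ (X.D x ⊗ₜ y + X.E x ⊗ₜ Z.D y)
    rw [map_add, TensorProduct.map_tmul, TensorProduct.map_tmul, X.EE, X.DE,
      TensorProduct.neg_tmul, ← TensorProduct.tmul_sub, h3, TensorProduct.tmul_add]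
    abel
  have e1 : IsHtp (((Hom.id X).tens g).comp ((Hom.id X).tens f)) (Hom.id (X.tens Y))
      (TensorProduct.map X.E s) := by
    intro v
    have h1 := key Y (g.comp f) s hgf v
    rw [← h1]
    congr 1
    exact tens_ext (f := (((Hom.id X).tens g).comp ((Hom.id X).tens f)).f)
      (g := ((Hom.id X).tens (g.comp f)).f) (fun x y => rfl) v
  have e2 : IsHtp (((Hom.id X).tens f).comp ((Hom.id X).tens g)) (Hom.id (X.tens Y'))
      (TensorProduct.map X.E s') := by
    intro v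
    have h1 := key Y' (f.comp g) s' hfg v
    rw [← h1]
    congr 1
    exact tens_ext (f := (((Hom.id X).tens f).comp ((Hom.id X).tens g)).f)
      (g := ((Hom.id X).tens (f.comp g)).f) (fun x y => rfl) v
  exact Hom.QI.of_inverse e1 e2

theorem SES.tensL {f : SD.Hom X X'} {g : SD.Hom X' X''} (h : SES f g) (Y : SD k) :
    SES (f.tens (Hom.id Y)) (g.tens (Hom.id Y)) := by
  have hi : Function.Injective f.f := (injective_iff_map_eq_zero f.f).2 h.inj
  obtain ⟨r, s, h1, h2, h3⟩ := Wd.exists_split hi h.surj h.zero h.exact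
  have e1 : ∀ v, TensorProduct.map r LinearMap.id ((f.tens (Hom.id Y)).f v) = v := fun v =>
    tens_ext (f := TensorProduct.map r LinearMap.id ∘ₗ (f.tens (Hom.id Y)).f)
      (g := LinearMap.id) (fun x y => by
        change r (f.f x) ⊗ₜ y = x ⊗ₜ y
        rw [h1]) v
  have e2 : ∀ v, (g.tens (Hom.id Y)).f (TensorProduct.map s LinearMap.id v) = v := fun v =>
    tens_ext (f := (g.tens (Hom.id Y)).f ∘ₗ TensorProduct.map s LinearMap.id)
      (g := LinearMap.id) (fun x y => by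
        change g.f (s x) ⊗ₜ y = x ⊗ₜ y
        rw [h2]) v
  have e3 : ∀ v, (f.tens (Hom.id Y)).f (TensorProduct.map r LinearMap.id v)
      + TensorProduct.map s LinearMap.id ((g.tens (Hom.id Y)).f v) = v := fun v =>
    tens_ext (f := (f.tens (Hom.id Y)).f ∘ₗ TensorProduct.map r LinearMap.id
      + TensorProduct.map s LinearMap.id ∘ₗ (g.tens (Hom.id Y)).f)
      (g := LinearMap.id) (fun x y => by
        change f.f (r x) ⊗ₜ y + s (g.f x) ⊗ₜ y = x ⊗ₜ y
        rw [← TensorProduct.add_tmul, h3]) v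
  refine ⟨fun x hx => ?_, fun z => ⟨_, e2 z⟩, fun x => ?_, fun y hy => ?_⟩
  · rw [← e1 x, hx, map_zero]
  · exact tens_ext (f := (g.tens (Hom.id Y)).f ∘ₗ (f.tens (Hom.id Y)).f) (g := 0)
      (fun x y => by
        change g.f (f.f x) ⊗ₜ y = 0
        rw [h.zero, TensorProduct.zero_tmul]) x
  · have := e3 y
    rw [hy, map_zero, add_zero] at this
    exact ⟨_, this⟩

theorem SES.tensR {f : SD.Hom Y Y'} {g : SD.Hom Y' Y''} (h : SES f g) (X : SD k) :
    SES ((Hom.id X).tens f) ((Hom.id X).tens g) := by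
  have hi : Function.Injective f.f := (injective_iff_map_eq_zero f.f).2 h.inj
  obtain ⟨r, s, h1, h2, h3⟩ := Wd.exists_split hi h.surj h.zero h.exact
  have e1 : ∀ v, TensorProduct.map LinearMap.id r (((Hom.id X).tens f).f v) = v := fun v =>
    tens_ext (f := TensorProduct.map LinearMap.id r ∘ₗ ((Hom.id X).tens f).f)
      (g := LinearMap.id) (fun x y => by
        change x ⊗ₜ r (f.f y) = x ⊗ₜ y
        rw [h1]) v
  have e2 : ∀ v, ((Hom.id X).tens g).f (TensorProduct.map LinearMap.id s v) = v := fun v =>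
    tens_ext (f := ((Hom.id X).tens g).f ∘ₗ TensorProduct.map LinearMap.id s)
      (g := LinearMap.id) (fun x y => by
        change x ⊗ₜ g.f (s y) = x ⊗ₜ y
        rw [h2]) v
  have e3 : ∀ v, ((Hom.id X).tens f).f (TensorProduct.map LinearMap.id r v)
      + TensorProduct.map LinearMap.id s (((Hom.id X).tens g).f v) = v := fun v =>
    tens_ext (f := ((Hom.id X).tens f).f ∘ₗ TensorProduct.map LinearMap.id r
      + TensorProduct.map LinearMap.id s ∘ₗ ((Hom.id X).tens g).f)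
      (g := LinearMap.id) (fun x y => by
        change x ⊗ₜ f.f (r y) + x ⊗ₜ s (g.f y) = x ⊗ₜ y
        rw [← TensorProduct.tmul_add, h3]) v
  refine ⟨fun x hx => ?_, fun z => ⟨_, e2 z⟩, fun x => ?_, fun y hy => ?_⟩
  · rw [← e1 x, hx, map_zero]
  · exact tens_ext (f := ((Hom.id X).tens g).f ∘ₗ ((Hom.id X).tens f).f) (g := 0)
      (fun x y => by
        change x ⊗ₜ g.f (f.f y) = 0
        rw [h.zero, TensorProduct.tmul_zero]) x
  · have := e3 y
    rw [hy, map_zero, add_zero] at this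
    exact ⟨_, this⟩

end SD

/-- tensor products of maps of modules are maps of bimodules -/
theorem tensLR_isHom {A B : DGA k} {X X' Y Y' : SD k} {a : LA A X} {a' : LA A X'} {b : RA B Y}
    {b' : RA B Y'} {f : SD.Hom X X'} {g : SD.Hom Y Y'} (hf : a.IsHom a' f) (hg : b.IsHom b' g) :
    (Bi.tensLR a b).IsHom (Bi.tensLR a' b') (f.tens g) where
  l := fun r v => tens_ext (f := (f.tens g).f ∘ₗ (a.tensL Y).act r)
    (g := (a'.tensL Y').act r ∘ₗ (f.tens g).f) (fun x y => by
      change f.f (a.act r x) ⊗ₜ g.f y = a'.act r (f.f x) ⊗ₜ g.f y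
      rw [hf r x]) v
  r := fun v r => tens_ext (f := (f.tens g).f ∘ₗ (b.tensR X).act.flip r)
    (g := (b'.tensR X').act.flip r ∘ₗ (f.tens g).f) (fun x y => by
      change f.f x ⊗ₜ g.f (b.act y r) = f.f x ⊗ₜ b'.act (g.f y) r
      rw [hg y r]) v

end NC
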