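import Pool.Agent.H9.NC.Lin

/-!
# Chase : unions, Mayer-Vietoris bound, chase for coefficients which are a retract of a cokernel
-/

set_option autoImplicit false

noncomputable section

namespace NC

variable {k : Type} [Field k]

namespace SD

/-- a map out of a union of subcomplexes -/
theorem Hom.QI.of_union {X Z : SD k} (Y : ℕ → SD k) (f : ∀ m, SD.Hom (Y m) X) (ψ : SD.Hom X Z)
    (hinj : ∀ m, Function.Injective (f m).f) (hex : ∀ x : X.V, ∃ m, ∃ y, (f m).f y = x)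
    (hq : ∀ m, (ψ.comp (f m)).QI) : ψ.QI := by
  constructor
  · intro x z hx hxz
    obtain ⟨m, y, rfl⟩ := hex x
    have h1 : (Y m).D y = 0 := by
      apply hinj m
      rw [(f m).D, hx, map_zero]
    obtain ⟨w, hw⟩ := (hq m).inj y z h1 hxz
    exact ⟨(f m).f w, by rw [← (f m).D, hw]⟩
  · intro z hz
    obtain ⟨y, w, hy, hw⟩ := (hq 0).surj z hz
    refine ⟨(f 0).f y, w, ?_, hw⟩
    rw [← (f 0).D, hy, map_zero]

/-- the even homology of the first term of a short exact sequence: if the kernel of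
`H(M) → H(N)` (even part) and the cokernel of `H(M) → H(N)` (odd part) are spanned by one element
then the even homology of `A` is spanned by two elements -/
theorem SES.even_bound {A M N : SD k} {f : SD.Hom A M} {g : SD.Hom M N} (h : SES f g)
    (m0 : M.V) (n0 : N.V)
    (hK : ∀ m, M.P m = m → M.D m = 0 → (∃ n, N.D n = g.f m) → ∃ c : k, M.Hml m (c • m0))
    (hC : ∀ n, N.P n = 0 → N.D n = 0 →
      ∃ (c : k) (m : M.V), M.D m = 0 ∧ N.Hml n (c • n0 + g.f m)) :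
    ∃ a b : A.V, A.D a = 0 ∧ A.D b = 0 ∧ A.P a = a ∧ A.P b = b ∧
      ∀ x, A.P x = x → A.D x = 0 → ∃ c d : k, A.Hml x (c • a + d • b) := by
  -- first step: the image in M
  have step1 : ∃ a : A.V, A.D a = 0 ∧ A.P a = a ∧
      ∀ x, A.P x = x → A.D x = 0 → ∃ (c : k) (p : M.V), M.D p = f.f (x - c • a) := by
    have hx0 : ∀ x, A.P x = x → A.D x = 0 → ∃ c : k, M.Hml (f.f x) (c • m0) := by
      intro x hP hD
      refine hK _ (by rw [← f.P, hP]) (by rw [← f.D, hD, map_zero]) ⟨0, ?_⟩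
      rw [h.zero, map_zero]
    by_cases hc : ∃ a : A.V, A.D a = 0 ∧ A.P a = a ∧ ∃ c : k, c ≠ 0 ∧ M.Hml (f.f a) (c • m0)
    · obtain ⟨a, ha, haP, c0, hc0, w, hw⟩ := hc
      refine ⟨a, ha, haP, fun x hP hD => ?_⟩
      obtain ⟨c, v, hv⟩ := hx0 x hP hD
      refine ⟨c / c0, v - (c / c0) • w, ?_⟩
      rw [map_sub, map_smul, hv, hw, map_sub, map_smul, smul_sub, smul_smul,
        div_mul_cancel₀ _ hc0]
      abel
    · refine ⟨0, map_zero _, map_zero _, fun x hP hD => ⟨0, ?_⟩⟩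
      obtain ⟨c, v, hv⟩ := hx0 x hP hD
      have h1 : c = 0 := by
        by_contra hne
        exact hc ⟨x, hD, hP, c, hne, v, hv⟩
      refine ⟨v, ?_⟩
      rw [hv, h1, zero_smul, zero_smul, sub_zero, sub_zero]
  obtain ⟨a, ha, haP, h1⟩ := step1
  -- the relation with the second coordinate
  have step2 : ∀ x, A.P x = x → A.D x = 0 → (∃ p, M.D p = f.f x) →
      ∃ (c : k) (p m : M.V), M.D p = f.f x ∧ M.D m = 0 ∧ N.Hml (g.f p) (c • n0 + g.f m) := by
    rintro x hP hD ⟨p, hp⟩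
    have hp' : M.D (p - M.P p) = f.f x := by
      rw [map_sub, M.DP, hp, ← f.P, hP]
      abel
    obtain ⟨c, m, hm, hcm⟩ := hC (g.f (p - M.P p)) (by
      rw [← g.P, map_sub, M.PP, sub_self, map_zero]) (by rw [← g.D, hp', h.zero])
    exact ⟨c, _, m, hp', hm, hcm⟩
  have step3 : ∀ (x : A.V) (p m : M.V), M.D p = f.f x → M.D m = 0 → N.Hml (g.f p) (g.f m) →
      ∃ z, A.D z = x := by
    rintro x p m hp hm ⟨v, hv⟩
    obtain ⟨v', rfl⟩ := h.surj v
    obtain ⟨y, hy⟩ := h.exact (p - m - M.D v') (by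
      rw [map_sub, map_sub, g.D, hv]
      abel)
    refine ⟨y, h.inj' ?_⟩
    rw [f.D, hy, map_sub, map_sub, M.DD, hp, hm]
    abel
  by_cases hc : ∃ b : A.V, A.D b = 0 ∧ A.P b = b ∧ ∃ (c : k) (p m : M.V), c ≠ 0 ∧
      M.D p = f.f b ∧ M.D m = 0 ∧ N.Hml (g.f p) (c • n0 + g.f m)
  · obtain ⟨b, hb, hbP, c0, p0, m0', hc0, hp0, hm0, w0, hw0⟩ := hc
    refine ⟨a, b, ha, hb, haP, hbP, fun x hP hD => ?_⟩
    obtain ⟨c, q, hq⟩ := h1 x hP hD
    have e1 : A.P (x - c • a) = x - c • a := by rw [map_sub, map_smul, hP, haP]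
    have e2 : A.D (x - c • a) = 0 := by rw [map_sub, map_smul, hD, ha, smul_zero, sub_zero]
    obtain ⟨c', p, m, hp, hm, w, hw⟩ := step2 _ e1 e2 ⟨q, hq⟩
    refine ⟨c, c' / c0, ?_⟩
    obtain ⟨z, hz⟩ := step3 (x - c • a - (c' / c0) • b) (p - (c' / c0) • p0)
      (m - (c' / c0) • m0') (by rw [map_sub, map_smul, hp, hp0, map_sub f.f _ ((c' / c0) • b),
        map_smul]) (by rw [map_sub, map_smul, hm, hm0, smul_zero, sub_zero])
      ⟨w - (c' / c0) • w0, by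
        rw [map_sub, map_smul, hw, hw0, map_sub, map_sub, map_smul, map_smul, smul_sub, smul_add,
          smul_smul, div_mul_cancel₀ _ hc0]
        abel⟩
    exact ⟨z, by rw [hz]; abel⟩
  · refine ⟨a, 0, ha, map_zero _, haP, map_zero _, fun x hP hD => ?_⟩
    obtain ⟨c, q, hq⟩ := h1 x hP hD
    have e1 : A.P (x - c • a) = x - c • a := by rw [map_sub, map_smul, hP, haP]
    have e2 : A.D (x - c • a) = 0 := by rw [map_sub, map_smul, hD, ha, smul_zero, sub_zero]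
    obtain ⟨c', p, m, hp, hm, hw⟩ := step2 _ e1 e2 ⟨q, hq⟩
    have h2 : c' = 0 := by
      by_contra hne
      exact hc ⟨_, e2, e1, c', p, m, hne, hp, hm, hw⟩
    rw [h2, zero_smul, zero_add] at hw
    obtain ⟨z, hz⟩ := step3 _ p m hp hm hw
    exact ⟨c, 0, z, by rw [hz, smul_zero]; abel⟩

/-- the shift of a short exact sequence -/
theorem SES.sh {A M N : SD k} {f : SD.Hom A M} {g : SD.Hom M N} (h : SES f g) :
    SES f.sh g.sh :=
  ⟨h.inj, h.surj, h.zero, h.exact⟩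

/-- the odd version of `SES.even_bound` -/
theorem SES.odd_bound {A M N : SD k} {f : SD.Hom A M} {g : SD.Hom M N} (h : SES f g)
    (m0 : M.V) (n0 : N.V)
    (hK : ∀ m, M.P m = 0 → M.D m = 0 → (∃ n, N.D n = g.f m) → ∃ c : k, M.Hml m (c • m0))
    (hC : ∀ n, N.P n = n → N.D n = 0 →
      ∃ (c : k) (m : M.V), M.D m = 0 ∧ N.Hml n (c • n0 + g.f m)) :
    ∃ a b : A.V, A.D a = 0 ∧ A.D b = 0 ∧ A.P a = 0 ∧ A.P b = 0 ∧
      ∀ x, A.P x = 0 → A.D x = 0 → ∃ c d : k, A.Hml x (c • a + d • b) := by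
  have key : ∀ (X : SD k) (x y : X.V), X.sh.Hml x y ↔ X.Hml x y := by
    intro X x y
    constructor
    · rintro ⟨z, hz⟩
      have hz' : -(X.D z) = x - y := hz
      exact ⟨-z, by rw [map_neg, hz']⟩
    · rintro ⟨z, hz⟩
      refine ⟨-z, ?_⟩
      change -(X.D (-z)) = x - y
      rw [map_neg, neg_neg, hz]
  have kP : ∀ (X : SD k) (x : X.V), X.sh.P x = x ↔ X.P x = 0 := by
    intro X x
    change x - X.P x = x ↔ _
    exact ⟨fun e => by simpa using e, fun e => by rw [e, sub_zero]⟩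
  have kP' : ∀ (X : SD k) (x : X.V), X.sh.P x = 0 ↔ X.P x = x := by
    intro X x
    change x - X.P x = 0 ↔ _
    exact ⟨fun e => (sub_eq_zero.1 e).symm, fun e => by rw [e, sub_self]⟩
  have kD : ∀ (X : SD k) (x : X.V), X.sh.D x = 0 ↔ X.D x = 0 := by
    intro X x
    change -(X.D x) = 0 ↔ _
    exact neg_eq_zero
  obtain ⟨a, b, ha, hb, haP, hbP, hx⟩ := SES.even_bound h.sh m0 n0 (fun m hP hD hn => by
      obtain ⟨n, hn⟩ := hn
      have hn' : -(N.D n) = g.f m := hn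
      obtain ⟨c, hc⟩ := hK m ((kP M m).1 hP) ((kD M m).1 hD) ⟨-n, by rw [map_neg, hn']⟩
      exact ⟨c, (key M _ _).2 hc⟩)
    (fun n hP hD => by
      obtain ⟨c, m, hm, hcm⟩ := hC n ((kP' N n).1 hP) ((kD N n).1 hD)
      exact ⟨c, m, (kD M m).2 hm, (key N _ _).2 hcm⟩)
  refine ⟨a, b, (kD A a).1 ha, (kD A b).1 hb, (kP A a).1 haP, (kP A b).1 hbP, fun x hP hD => ?_⟩
  obtain ⟨c, d, hcd⟩ := hx x ((kP A x).2 hP) ((kD A x).2 hD)
  exact ⟨c, d, (key A _ _).1 hcd⟩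

/-- chase for coefficients which are a retract of a cokernel, even cycles -/
theorem coker_even {X X' N : SD k} {δ : SD.Hom X X} {π : SD.Hom X X'} (h : SES δ π)
    (s : SD.Hom N X') (r : SD.Hom X' N) (hrs : ∀ x, r.f (s.f x) = x)
    (hodd : ∀ x, X.P x = 0 → X.D x = 0 → ∃ y, X.D y = x)
    {B : Type} (G : B → X.V) (hG : ∀ x, X.P x = x → X.D x = 0 → ∃ b, X.Hml x (G b))
    (x : N.V) (hP : N.P x = x) (hD : N.D x = 0) : ∃ b, N.Hml x (r.f (π.f (G b))) := by
  obtain ⟨y, hy⟩ := h.surj (s.f x)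
  have hy' : π.f (X.P y) = s.f x := by rw [π.P, hy, ← s.P, hP]
  obtain ⟨z, hz⟩ := h.exact (X.D (X.P y)) (by rw [π.D, hy', ← s.D, hD, map_zero])
  have hzD : X.D z = 0 := h.inj _ (by rw [δ.D, hz, X.DD])
  have hzP : X.P z = 0 := by
    apply h.inj
    rw [δ.P, hz]
    have e := X.DP (X.P y)
    rw [X.PP] at e
    rw [eq_sub_iff_add_eq, add_eq_left] at e
    exact e
  obtain ⟨w, hw⟩ := hodd z hzP hzD
  -- replace w by its even part
  have hw' : X.D (X.P w) = z := by rw [X.DP, hw, hzP, sub_zero]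
  obtain ⟨b, v, hv⟩ := hG (X.P y - δ.f (X.P w)) (by rw [map_sub, X.PP, ← δ.P, X.PP])
    (by rw [map_sub, ← δ.D, hw', hz, sub_self])
  refine ⟨b, r.f (π.f v), ?_⟩
  rw [← r.D, ← π.D, hv, map_sub, map_sub, map_sub, map_sub, h.zero, hy', hrs, map_zero, sub_zero]

/-- chase for coefficients which are a retract of a cokernel, odd cycles -/
theorem coker_odd {X X' N : SD k} {δ : SD.Hom X X} {π : SD.Hom X X'} (h : SES δ π)
    (s : SD.Hom N X') (r : SD.Hom X' N) (hrs : ∀ x, r.f (s.f x) = x)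
    (hodd : ∀ x, X.P x = 0 → X.D x = 0 → ∃ y, X.D y = x)
    {B : Type} (G ζ : B → X.V) (hG : ∀ x, X.P x = x → X.D x = 0 → ∃ b, X.Hml x (G b))
    (hζP : ∀ b, X.P (ζ b) = 0) (hζ : ∀ b, X.D (ζ b) = δ.f (G b))
    (x : N.V) (hP : N.P x = 0) (hD : N.D x = 0) : ∃ b, N.Hml x (r.f (π.f (ζ b))) := by
  obtain ⟨y, hy⟩ := h.surj (s.f x)
  have hy' : π.f (y - X.P y) = s.f x := by rw [map_sub, π.P, hy, ← s.P, hP, map_zero, sub_zero]
  obtain ⟨z, hz⟩ := h.exact (X.D (y - X.P y)) (by rw [π.D, hy', ← s.D, hD, map_zero])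
  have hzD : X.D z = 0 := h.inj _ (by rw [δ.D, hz, X.DD])
  have hzP : X.P z = z := by
    apply h.inj'
    rw [δ.P, hz, map_sub, X.DP]
    rw [sub_sub_cancel, X.PP]
  obtain ⟨b, v, hv⟩ := hG z hzP hzD
  have hv' : X.D (v - X.P v) = z - G b := by
    have e2 := X.DP v
    have e3 : X.P (G b) = G b := by
      apply h.inj'
      rw [δ.P, ← hζ, eq_comm]
      have e := X.DP (ζ b)
      rw [hζP, map_zero] at e
      exact (sub_eq_zero.1 e.symm)
    rw [map_sub, e2, hv, sub_sub_cancel, map_sub, hzP, e3]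
  obtain ⟨u, hu⟩ := hodd (y - X.P y - δ.f (v - X.P v) - ζ b) (by
      rw [map_sub, map_sub, map_sub, X.PP, sub_self, ← δ.P, map_sub, X.PP, sub_self, map_zero,
        hζP, sub_zero, sub_zero])
    (by rw [map_sub, map_sub, ← δ.D, hv', ← hz, hζ, map_sub]; abel)
  refine ⟨b, r.f (π.f u), ?_⟩
  rw [← r.D, ← π.D, hu, map_sub, map_sub, map_sub, map_sub, h.zero, hy', hrs, map_zero, sub_zero]

end SD

end NC
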