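import Pool.Agent.H15.NC.HCQI
import Pool.Agent.H16.NC.Tens

/-!
# Cone : mapping cones, the Hochschild complex and tensor products preserve quasi-isomorphisms
-/

set_option autoImplicit false

open scoped TensorProduct

noncomputable section

namespace NC

variable {k : Type} [Field k]

/-- the mapping cone -/
def SD.hcone {X Y : SD k} (f : SD.Hom X Y) : SD k where
  V := X.V × Y.V
  D := LinearMap.prod (-(X.D ∘ₗ LinearMap.fst k X.V Y.V))
    (f.f ∘ₗ LinearMap.fst k X.V Y.V + Y.D ∘ₗ LinearMap.snd k X.V Y.V)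
  P := LinearMap.prod ((LinearMap.id - X.P) ∘ₗ LinearMap.fst k X.V Y.V)
    (Y.P ∘ₗ LinearMap.snd k X.V Y.V)
  DD := fun v => by
    refine Prod.ext ?_ ?_
    · simp [X.DD]
    · simp [Y.DD, f.D]
  PP := fun v => by
    refine Prod.ext ?_ ?_
    · simp [X.PP]
    · simp [Y.PP]
  DP := fun v => by
    refine Prod.ext ?_ ?_
    · simp [X.DP]
    · simp [Y.DP, f.P]
      abel

theorem SD.hcone_D {X Y : SD k} (f : SD.Hom X Y) (v : X.V × Y.V) :
    (SD.hcone f).D v = (-(X.D v.1), f.f v.1 + Y.D v.2) := rfl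

theorem SD.hcone_P {X Y : SD k} (f : SD.Hom X Y) (v : X.V × Y.V) :
    (SD.hcone f).P v = (v.1 - X.P v.1, Y.P v.2) := rfl

theorem SD.hcone_E {X Y : SD k} (f : SD.Hom X Y) (v : X.V × Y.V) :
    (SD.hcone f).E v = (-(X.E v.1), Y.E v.2) := by
  change ((v.1 - X.P v.1, Y.P v.2) + (v.1 - X.P v.1, Y.P v.2) - v : X.V × Y.V) = _
  refine Prod.ext ?_ ?_
  · simp only [SD.E_apply, Prod.fst_add, Prod.fst_sub]
    abel
  · simp only [SD.E_apply, Prod.snd_add, Prod.snd_sub]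

/-- first inclusion -/
def SD.cinl {X Y : SD k} (f : SD.Hom X Y) : X.V →ₗ[k] (SD.hcone f).V := LinearMap.inl k X.V Y.V

/-- second inclusion -/
def SD.cinr {X Y : SD k} (f : SD.Hom X Y) : Y.V →ₗ[k] (SD.hcone f).V := LinearMap.inr k X.V Y.V

/-- first projection -/
def SD.cfst {X Y : SD k} (f : SD.Hom X Y) : (SD.hcone f).V →ₗ[k] X.V := LinearMap.fst k X.V Y.V

/-- second projection -/
def SD.csnd {X Y : SD k} (f : SD.Hom X Y) : (SD.hcone f).V →ₗ[k] Y.V := LinearMap.snd k X.V Y.V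

theorem SD.hcone_D_inl {X Y : SD k} (f : SD.Hom X Y) (n : X.V) :
    (SD.hcone f).D (SD.cinl f n) = -(SD.cinl f (X.D n)) + SD.cinr f (f.f n) := by
  change ((-(X.D n), f.f n + Y.D 0) : X.V × Y.V) = (-(X.D n) + 0, -(0 : Y.V) + f.f n)
  rw [map_zero, add_zero, add_zero, neg_zero, zero_add]

theorem SD.hcone_D_inr {X Y : SD k} (f : SD.Hom X Y) (n : Y.V) :
    (SD.hcone f).D (SD.cinr f n) = SD.cinr f (Y.D n) := by
  change ((-(X.D 0), f.f 0 + Y.D n) : X.V × Y.V) = (0, Y.D n)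
  refine Prod.ext ?_ ?_ <;> simp

theorem SD.hcone_E_inl {X Y : SD k} (f : SD.Hom X Y) (n : X.V) :
    (SD.hcone f).E (SD.cinl f n) = -(SD.cinl f (X.E n)) := by
  refine (SD.hcone_E f _).trans ?_
  change ((-(X.E n), Y.E 0) : X.V × Y.V) = -(X.E n, 0)
  refine Prod.ext ?_ ?_ <;> simp

theorem SD.hcone_E_inr {X Y : SD k} (f : SD.Hom X Y) (n : Y.V) :
    (SD.hcone f).E (SD.cinr f n) = SD.cinr f (Y.E n) := by
  refine (SD.hcone_E f _).trans ?_
  change ((-(X.E 0), Y.E n) : X.V × Y.V) = (0, Y.E n)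
  refine Prod.ext ?_ ?_ <;> simp

theorem SD.Hom.QI.hcone {X Y : SD k} {f : SD.Hom X Y} (hf : f.QI) : (SD.hcone f).Acyclic := by
  rintro ⟨x, y⟩ hxy
  have h1 : -(X.D x) = 0 := congrArg Prod.fst hxy
  have h2 : f.f x + Y.D y = 0 := congrArg Prod.snd hxy
  have h1' : X.D x = 0 := neg_eq_zero.1 h1
  have h3 : f.f x = Y.D (-y) := by rw [map_neg]; exact eq_neg_of_add_eq_zero_left h2
  obtain ⟨z, hz⟩ := hf.inj x (-y) h1' h3
  have h4 : Y.D (y + f.f z) = 0 := by
    rw [map_add, ← f.D, hz, add_comm]; exact h2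
  obtain ⟨x', z', hx', hy⟩ := hf.surj _ h4
  refine ⟨(-z + x', z'), ?_⟩
  rw [SD.hcone_D]
  refine Prod.ext ?_ ?_
  · simp [hx', hz]
  · simp only [map_add, map_neg]
    have : f.f x' + Y.D z' = y + f.f z := hy.symm
    calc -(f.f z) + f.f x' + Y.D z' = -(f.f z) + (f.f x' + Y.D z') := by abel
      _ = y := by rw [this]; abel

theorem SD.Hom.QI.of_hcone {X Y : SD k} {f : SD.Hom X Y} (hf : (SD.hcone f).Acyclic) : f.QI := by
  constructor
  · intro x y hx hxy
    obtain ⟨u, hu⟩ := hf (x, -y) (by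
      rw [SD.hcone_D]
      change ((-(X.D x), f.f x + Y.D (-y)) : X.V × Y.V) = 0
      refine Prod.ext ?_ ?_
      · simp [hx]
      · simp [hxy])
    refine ⟨-u.1, ?_⟩
    have h1 : -(X.D u.1) = x := congrArg Prod.fst hu
    rw [map_neg, h1]
  · intro y hy
    obtain ⟨u, hu⟩ := hf (0, y) (by
      rw [SD.hcone_D]
      change ((-(X.D 0), f.f 0 + Y.D y) : X.V × Y.V) = 0
      refine Prod.ext ?_ ?_
      · simp
      · simp [hy])
    have h1 : -(X.D u.1) = 0 := congrArg Prod.fst hu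
    have h2 : f.f u.1 + Y.D u.2 = y := congrArg Prod.snd hu
    exact ⟨u.1, u.2, neg_eq_zero.1 h1, h2.symm⟩

/-! ### the cone as a bimodule -/

section

variable {A B : DGA k} {X Y : SD k} (f : SD.Hom X Y)

/-- (internal) -/
def coneL (a : LA A X) (a' : LA A Y) : A.V →ₗ[k] (X.V × Y.V) →ₗ[k] (X.V × Y.V) :=
  LinearMap.mk₂ k (fun r v => ((a.act (A.E r) v.1, a'.act r v.2) : X.V × Y.V))
    (fun _ _ _ => by simp) (fun _ _ _ => by simp) (fun _ _ _ => by simp) (fun _ _ _ => by simp)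

/-- (internal) -/
def coneR (a : RA A X) (a' : RA A Y) : (X.V × Y.V) →ₗ[k] A.V →ₗ[k] (X.V × Y.V) :=
  LinearMap.mk₂ k (fun v r => ((a.act v.1 r, a'.act v.2 r) : X.V × Y.V))
    (fun _ _ _ => by simp) (fun _ _ _ => by simp) (fun _ _ _ => by simp) (fun _ _ _ => by simp)

/-- left action on the cone -/
def LA.hcone (a : LA A X) (a' : LA A Y) (h : a.IsHom a' f) : LA A (SD.hcone f) where
  act := coneL a a'
  mul_act := fun r s v => by
    change ((a.act (A.E (r * s)) v.1, a'.act (r * s) v.2) : X.V × Y.V)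
      = (a.act (A.E r) (a.act (A.E s) v.1), a'.act r (a'.act s v.2))
    rw [A.E_mul, a.mul_act, a'.mul_act]
  P_act := fun r v => by
    change ((a.act (A.E r) v.1 - X.P (a.act (A.E r) v.1), Y.P (a'.act r v.2)) : X.V × Y.V)
      = (a.act (A.E (A.P r)) (v.1 - X.P v.1), a'.act (A.P r) (Y.P v.2))
        + (a.act (A.E (r - A.P r)) (v.1 - (v.1 - X.P v.1)), a'.act (r - A.P r) (v.2 - Y.P v.2))
    refine Prod.ext ?_ ?_
    · simp only [a.P_act, SD.E_apply, A.PP, map_sub, map_add, LinearMap.sub_apply,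
        LinearMap.add_apply, Prod.fst_add]
      abel
    · simp only [a'.P_act, Prod.snd_add]
  D_act := fun r v => by
    change ((-(X.D (a.act (A.E r) v.1)), f.f (a.act (A.E r) v.1) + Y.D (a'.act r v.2)) :
        X.V × Y.V)
      = (a.act (A.E (A.D r)) v.1, a'.act (A.D r) v.2)
        + (a.act (A.E (A.E r)) (-(X.D v.1)), a'.act (A.E r) (f.f v.1 + Y.D v.2))
    refine Prod.ext ?_ ?_
    · simp only [a.D_act, Prod.fst_add, A.ED, map_neg, LinearMap.neg_apply]
      abel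
    · simp only [a'.D_act, Prod.snd_add, map_add, h (A.E r) v.1]
      abel

/-- right action on the cone -/
def RA.hcone (a : RA A X) (a' : RA A Y) (h : a.IsHom a' f) : RA A (SD.hcone f) where
  act := coneR a a'
  act_mul := fun v r s => by
    change ((a.act (a.act v.1 r) s, a'.act (a'.act v.2 r) s) : X.V × Y.V)
      = (a.act v.1 (r * s), a'.act v.2 (r * s))
    rw [a.act_mul, a'.act_mul]
  P_act := fun v r => by
    change ((a.act v.1 r - X.P (a.act v.1 r), Y.P (a'.act v.2 r)) : X.V × Y.V)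
      = (a.act (v.1 - X.P v.1) (A.P r), a'.act (Y.P v.2) (A.P r))
        + (a.act (v.1 - (v.1 - X.P v.1)) (r - A.P r), a'.act (v.2 - Y.P v.2) (r - A.P r))
    refine Prod.ext ?_ ?_
    · simp only [a.P_act, map_sub, LinearMap.sub_apply, Prod.fst_add]
      abel
    · simp only [a'.P_act, Prod.snd_add]
  D_act := fun v r => by
    have hE : (SD.hcone f).E v = ((-(X.E v.1), Y.E v.2) : X.V × Y.V) := SD.hcone_E f v
    rw [hE]
    change ((-(X.D (a.act v.1 r)), f.f (a.act v.1 r) + Y.D (a'.act v.2 r)) : X.V × Y.V)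
      = (a.act (-(X.D v.1)) r, a'.act (f.f v.1 + Y.D v.2) r)
        + (a.act (-(X.E v.1)) (A.D r), a'.act (Y.E v.2) (A.D r))
    refine Prod.ext ?_ ?_
    · simp only [a.D_act, Prod.fst_add, map_neg, LinearMap.neg_apply]
      abel
    · simp only [a'.D_act, Prod.snd_add, map_add, LinearMap.add_apply, h v.1 r]
      abel

/-- the cone of a map of bimodules -/
def Bi.hcone (b : Bi A B X) (b' : Bi A B Y) (h : b.IsHom b' f) : Bi A B (SD.hcone f) where
  l := b.l.hcone f b'.l h.l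
  r := b.r.hcone f b'.r h.r
  lr := fun r v s => by
    change ((b.r.act (b.l.act (A.E r) v.1) s, b'.r.act (b'.l.act r v.2) s) : X.V × Y.V)
      = (b.l.act (A.E r) (b.r.act v.1 s), b'.l.act r (b'.r.act v.2 s))
    rw [b.lr, b'.lr]

end

/-! ### quasi-isomorphisms of bimodules -/

section

variable {R : DGA k} {X Y : SD k} (b : Bi R R X) (b' : Bi R R Y) (f : SD.Hom X Y)
  (h : b.IsHom b' f)

/-- (internal) -/
def coneU (R : Type) [AddCommGroup R] [Module k R] :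
    Wd k X.V R × Wd k Y.V R →ₗ[k] Wd k (SD.hcone f).V R :=
  LinearMap.coprod (Wd.mh R (SD.cinl f)) (Wd.mh R (SD.cinr f))

/-- (internal) -/
def coneV (R : Type) [AddCommGroup R] [Module k R] :
    Wd k (SD.hcone f).V R →ₗ[k] Wd k X.V R × Wd k Y.V R :=
  LinearMap.prod (Wd.mh R (SD.cfst f)) (Wd.mh R (SD.csnd f))

theorem coneU_coneV (R : Type) [AddCommGroup R] [Module k R]
    (z : Wd k (SD.hcone f).V R) : coneU f R (coneV f R z) = z := by
  change Wd.mh R (SD.cinl f) (Wd.mh R (SD.cfst f) z)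
    + Wd.mh R (SD.cinr f) (Wd.mh R (SD.csnd f) z) = z
  have h1 : ∀ n : (SD.hcone f).V, (SD.cinl f ∘ₗ SD.cfst f + SD.cinr f ∘ₗ SD.csnd f) n
      = (LinearMap.id : (SD.hcone f).V →ₗ[k] (SD.hcone f).V) n := by
    intro n
    change ((n.1, 0) + (0, n.2) : X.V × Y.V) = (n.1, n.2)
    simp
  rw [Wd.mh_comp, Wd.mh_comp, ← Wd.mh_add, Wd.mh_congr h1, Wd.mh_id]

theorem coneV_coneU (R : Type) [AddCommGroup R] [Module k R]
    (z : Wd k X.V R × Wd k Y.V R) : coneV f R (coneU f R z) = z := by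
  have h1 : ∀ n, (SD.cfst f ∘ₗ SD.cinl f) n = LinearMap.id n := fun _ => rfl
  have h2 : ∀ n, (SD.cfst f ∘ₗ SD.cinr f) n = (0 : Y.V →ₗ[k] X.V) n := fun _ => rfl
  have h3 : ∀ n, (SD.csnd f ∘ₗ SD.cinl f) n = (0 : X.V →ₗ[k] Y.V) n := fun _ => rfl
  have h4 : ∀ n, (SD.csnd f ∘ₗ SD.cinr f) n = LinearMap.id n := fun _ => rfl
  change (Wd.mh R (SD.cfst f) (Wd.mh R (SD.cinl f) z.1 + Wd.mh R (SD.cinr f) z.2),
    Wd.mh R (SD.csnd f) (Wd.mh R (SD.cinl f) z.1 + Wd.mh R (SD.cinr f) z.2)) = z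
  rw [map_add, map_add, Wd.mh_comp, Wd.mh_comp, Wd.mh_comp, Wd.mh_comp,
    Wd.mh_congr h1, Wd.mh_congr h2, Wd.mh_congr h3, Wd.mh_congr h4, Wd.mh_id, Wd.mh_id,
    Wd.mh_zero, Wd.mh_zero, add_zero, zero_add]

theorem EW_inl (w : Wd k X.V R.V) :
    EW (SD.hcone f) R.toSD (Wd.mh R.V (SD.cinl f) w)
      = - Wd.mh R.V (SD.cinl f) (EW X R.toSD w) := by
  induction w using Wd.induction with
  | hadd u v hu hv => simp only [map_add, hu, hv]; abel
  | hnil n =>
    rw [Wd.mh_nil, EW_nil, EW_nil, Wd.mh_nil, ← map_neg, SD.hcone_E_inl]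
  | hsnoc w hw r => simp only [Wd.mh_snoc, EW_snoc, hw, map_neg, LinearMap.neg_apply]

theorem EW_inr (w : Wd k Y.V R.V) :
    EW (SD.hcone f) R.toSD (Wd.mh R.V (SD.cinr f) w)
      = Wd.mh R.V (SD.cinr f) (EW Y R.toSD w) := by
  induction w using Wd.induction with
  | hadd u v hu hv => simp only [map_add, hu, hv]
  | hnil n =>
    rw [Wd.mh_nil, EW_nil, EW_nil, Wd.mh_nil, SD.hcone_E_inr]
  | hsnoc w hw r => simp only [Wd.mh_snoc, EW_snoc, hw, map_neg]

theorem tl_inl (w : Wd k X.V R.V) (r : R.V) :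
    tl R (b.hcone f b' h).r.act (Wd.mh R.V (SD.cinl f) w) r
      = Wd.mh R.V (SD.cinl f) (tl R b.r.act w r) :=
  tl_mh b.r (b.hcone f b' h).r (SD.cinl f) (fun n a => by
    change ((b.r.act n a, 0) : X.V × Y.V) = (b.r.act n a, b'.r.act 0 a)
    rw [map_zero, LinearMap.zero_apply]) w r

theorem tl_inr (w : Wd k Y.V R.V) (r : R.V) :
    tl R (b.hcone f b' h).r.act (Wd.mh R.V (SD.cinr f) w) r
      = Wd.mh R.V (SD.cinr f) (tl R b'.r.act w r) :=
  tl_mh b'.r (b.hcone f b' h).r (SD.cinr f) (fun n a => by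
    change ((0, b'.r.act n a) : X.V × Y.V) = (b.r.act 0 a, b'.r.act n a)
    rw [map_zero, LinearMap.zero_apply]) w r

theorem hd_inl (w : Wd k X.V R.V) (s : R.V) :
    hd R (b.hcone f b' h).l s (Wd.mh R.V (SD.cinl f) w)
      = Wd.mh R.V (SD.cinl f) (hd R b.l (R.E s) w) := by
  have h1 := hd_mh (R := R) b.l (b.hcone f b' h).l (SD.cinl f)
    (fun r => R.E r) (fun a n => by
      change ((b.l.act a n, 0) : X.V × Y.V) = (b.l.act (R.E (R.E a)) n, b'.l.act (R.E a) 0)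
      rw [R.EE, map_zero]) (R.E s) w
  rw [R.EE] at h1
  exact h1

theorem hd_inr (w : Wd k Y.V R.V) (s : R.V) :
    hd R (b.hcone f b' h).l s (Wd.mh R.V (SD.cinr f) w)
      = Wd.mh R.V (SD.cinr f) (hd R b'.l s w) :=
  hd_mh (R := R) b'.l (b.hcone f b' h).l (SD.cinr f)
    (fun r => r) (fun a n => by
      change ((0, b'.l.act a n) : X.V × Y.V) = (b.l.act (R.E a) 0, b'.l.act a n)
      rw [map_zero]) s w

theorem Db_inl (w : Wd k X.V R.V) :
    Db (b.hcone f b' h).r (Wd.mh R.V (SD.cinl f) w)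
      = - Wd.mh R.V (SD.cinl f) (Db b.r w)
        + Wd.mh R.V (SD.cinr f) (Wd.mh R.V f.f w) := by
  induction w using Wd.induction with
  | hadd u v hu hv => simp only [map_add, hu, hv]; abel
  | hnil n =>
    rw [Wd.mh_nil, Db_nil, Db_nil, Wd.mh_nil, Wd.mh_nil, Wd.mh_nil, ← map_neg, ← map_add,
      SD.hcone_D_inl]
  | hsnoc w hw r =>
    simp only [Wd.mh_snoc, Db_snoc, hw, map_add, map_sub, map_neg, LinearMap.add_apply,
      LinearMap.neg_apply, EW_inl, tl_inl]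
    abel

theorem Db_inr (w : Wd k Y.V R.V) :
    Db (b.hcone f b' h).r (Wd.mh R.V (SD.cinr f) w)
      = Wd.mh R.V (SD.cinr f) (Db b'.r w) := by
  induction w using Wd.induction with
  | hadd u v hu hv => simp only [map_add, hu, hv]
  | hnil n =>
    rw [Wd.mh_nil, Db_nil, Db_nil, Wd.mh_nil, SD.hcone_D_inr]
  | hsnoc w hw r =>
    simp only [Wd.mh_snoc, Db_snoc, hw, map_add, map_sub, EW_inr, tl_inr]

theorem om_inl (w : Wd k X.V R.V) :
    om (b.hcone f b' h).l (Wd.mh R.V (SD.cinl f) w)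
      = - Wd.mh R.V (SD.cinl f) (om b.l w) := by
  induction w using Wd.induction with
  | hadd u v hu hv => simp only [map_add, hu, hv]; abel
  | hnil n => simp
  | hsnoc w hw r =>
    have h1 : R.E (R.P r) = R.P r := R.EP r
    have h2 : R.E (r - R.P r) = -(r - R.P r) := by
      rw [map_sub, R.EP, SD.E_apply]; abel
    rw [Wd.mh_snoc, om_snoc, om_snoc, EW_inl, map_neg, hd_inl, hd_inl, h1, h2, map_add, map_neg,
      LinearMap.neg_apply, map_neg]
    abel

theorem om_inr (w : Wd k Y.V R.V) :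
    om (b.hcone f b' h).l (Wd.mh R.V (SD.cinr f) w)
      = Wd.mh R.V (SD.cinr f) (om b'.l w) := by
  induction w using Wd.induction with
  | hadd u v hu hv => simp only [map_add, hu, hv]
  | hnil n => simp
  | hsnoc w hw r =>
    rw [Wd.mh_snoc, om_snoc, om_snoc, EW_inr, hd_inr, hd_inr, map_add]

theorem hcD_coneU (z : Wd k X.V R.V × Wd k Y.V R.V) :
    hcD (b.hcone f b' h) (coneU f R.V z) = coneU f R.V ((SD.hcone (hcN b b' f h)).D z) := by
  change hcD (b.hcone f b' h) (Wd.mh R.V (SD.cinl f) z.1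
      + Wd.mh R.V (SD.cinr f) z.2)
    = Wd.mh R.V (SD.cinl f) (-(hcD b z.1))
      + Wd.mh R.V (SD.cinr f) (Wd.mh R.V f.f z.1 + hcD b' z.2)
  simp only [map_add, map_neg, hcD_apply, Db_inl, Db_inr, om_inl, om_inr, map_sub]
  abel

/-- the Hochschild complex preserves quasi-isomorphisms of bimodules -/
theorem QI_hc (hf : f.QI) : (hcN b b' f h).QI := by
  refine SD.Hom.QI.of_hcone ?_
  intro z hz
  have h0 : ∀ u : Wd k X.V R.V × Wd k Y.V R.V,
      hcD (b.hcone f b' h) (coneU f R.V u)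
        = coneU f R.V ((SD.hcone (hcN b b' f h)).D u) := hcD_coneU b b' f h
  have h1 : hcD (b.hcone f b' h) (coneU f R.V z) = 0 := by
    refine (h0 z).trans ?_
    rw [hz]
    exact map_zero (coneU f R.V)
  obtain ⟨y, hy⟩ := hc_acyclic (b.hcone f b' h) hf.hcone _ h1
  refine ⟨coneV f R.V y, ?_⟩
  have h2 := h0 (coneV f R.V y)
  rw [coneU_coneV] at h2
  have h3 : coneV f R.V (hcD (b.hcone f b' h) y)
      = (SD.hcone (hcN b b' f h)).D (coneV f R.V y) :=
    (congrArg (coneV f R.V) h2).trans (coneV_coneU f R.V _)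
  have h4 : hcD (b.hcone f b' h) y = coneU f R.V z := hy
  rw [← h3, h4]
  exact coneV_coneU f R.V z

end

/-! ### the forms for `hcMap` over the identity -/

section

variable {R : DGA k} {X Y Z : SD k} {b : Bi R R X} {b' : Bi R R Y} {b'' : Bi R R Z}

theorem QI_hcMap_id (f : SD.Hom X Y)
    (h : b.IsHom (b'.res (DGA.NHom.id R) (DGA.NHom.id R)) f) (hf : f.QI) :
    (hcMap (DGA.NHom.id R) f h).QI := by
  have h' : b.IsHom b' f := ⟨fun a n => h.l a n, fun n a => h.r n a⟩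
  have h1 := QI_hc b b' f h' hf
  exact ⟨fun x y hx hxy => h1.inj x y hx hxy, fun y hy => h1.surj y hy⟩

theorem SES_hcMap_id (f : SD.Hom X Y)
    (h : b.IsHom (b'.res (DGA.NHom.id R) (DGA.NHom.id R)) f) (g : SD.Hom Y Z)
    (h' : b'.IsHom (b''.res (DGA.NHom.id R) (DGA.NHom.id R)) g) (hs : SD.SES f g) :
    SD.SES (hcMap (DGA.NHom.id R) f h) (hcMap (DGA.NHom.id R) g h') := by
  have e : b.IsHom b' f := ⟨fun a n => h.l a n, fun n a => h.r n a⟩
  have e' : b'.IsHom b'' g := ⟨fun a n => h'.l a n, fun n a => h'.r n a⟩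
  have h1 := SES_hc b b' b'' f e g e' hs
  exact ⟨h1.inj, h1.surj, h1.zero, h1.exact⟩

end

end NC
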