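import Pool.Agent.H15.NC.TensQ

/-!
# HCFree : `HC (A ⊗ Y) → Y` is a quasi-isomorphism for a unital right module `Y`
-/

set_option autoImplicit false

open scoped TensorProduct

noncomputable section

namespace NC

variable {k : Type} [Field k] {A : DGA k} {Y : SD k} (a : RA A Y)

/-- the bimodule `A ⊗ Y` -/
def frBi : Bi A A (A.toSD.tens Y) := Bi.tensLR A.diag.l a

/-- `a ⊗ y ↦ (-1)^(|a||y|) y a` -/
def frG : (A.V ⊗[k] Y.V) →ₗ[k] Y.V :=
  TensorProduct.lift ((a.act.flip ∘ₗ A.P) + ((a.act ∘ₗ Y.E).flip ∘ₗ (LinearMap.id - A.P)))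

theorem frG_tmul (r : A.V) (y : Y.V) :
    frG a (r ⊗ₜ y) = a.act y (A.P r) + a.act (Y.E y) (r - A.P r) := by
  simp [frG]

/-- `a ⊗ y ↦ (-1)^(|a||y|) y a`, bundled -/
def frGH : SD.Hom (A.toSD.tens Y) Y where
  f := frG a
  D := fun v => by
    refine tens_ext (f := frG a ∘ₗ SD.tD A.toSD Y) (g := Y.D ∘ₗ frG a) (fun r y => ?_) v
    simp only [LinearMap.comp_apply, SD.tD_tmul, map_add, frG_tmul, a.D_act, A.DP, map_sub,
      SD.E_apply, A.PP, Y.DP, Y.PP, LinearMap.sub_apply, LinearMap.add_apply]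
    abel
  P := fun v => by
    refine tens_ext (f := frG a ∘ₗ SD.tP A.toSD Y) (g := Y.P ∘ₗ frG a) (fun r y => ?_) v
    simp only [LinearMap.comp_apply, SD.tP_tmul, map_add, frG_tmul, a.P_act, A.PP, map_sub,
      SD.E_apply, Y.PP, LinearMap.sub_apply, LinearMap.add_apply]
    abel

theorem frG_comm (n : A.V ⊗[k] Y.V) (r : A.V) :
    (frGH a).f ((frBi a).r.act n r) = (frGH a).f ((frBi a).l.act (A.P r) n) +
      (frGH a).f ((frBi a).l.act (r - A.P r) ((A.toSD.tens Y).E n)) := by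
  refine tens_ext (f := (frGH a).f ∘ₗ (frBi a).r.act.flip r)
    (g := (frGH a).f ∘ₗ (frBi a).l.act (A.P r) +
      (frGH a).f ∘ₗ (frBi a).l.act (r - A.P r) ∘ₗ (A.toSD.tens Y).E) (fun s y => ?_) n
  change frG a (s ⊗ₜ a.act y r) = frG a ((A.P r * s) ⊗ₜ y)
    + frG a (((A.diag.l.tensL Y).act (r - A.P r)) ((A.toSD.tens Y).E (s ⊗ₜ y)))
  rw [SD.tens_E]
  change frG a (s ⊗ₜ a.act y r) = frG a ((A.P r * s) ⊗ₜ y)
    + frG a (((r - A.P r) * A.E s) ⊗ₜ Y.E y)
  have h1 : A.P (A.P r * s) = A.P r * A.P s := by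
    have h0 : A.P (A.P r * s) = A.P (A.P r) * A.P s + (A.P r - A.P (A.P r)) * (s - A.P s) :=
      A.P_mul (A.P r) s
    rw [h0, A.PP, sub_self, zero_mul, add_zero]
  have h2 : A.P ((r - A.P r) * A.E s) = (r - A.P r) * (A.E s - A.P s) := by
    have h0 : A.P ((r - A.P r) * A.E s) = A.P (r - A.P r) * A.P (A.E s)
        + ((r - A.P r) - A.P (r - A.P r)) * (A.E s - A.P (A.E s)) :=
      A.P_mul (r - A.P r) (A.E s)
    rw [h0, map_sub, A.PP, sub_self, zero_mul, zero_add, A.PE, sub_zero]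
  rw [frG_tmul, frG_tmul, frG_tmul, h1, h2, Y.EE, a.act_mul, a.E_act, a.act_mul]
  simp only [SD.E_apply, sub_mul, mul_sub, add_mul, mul_add, map_sub, map_add,
    LinearMap.sub_apply, LinearMap.add_apply]
  abel

/-- the augmentation `HC (A ⊗ Y) → Y` -/
def frAug : SD.Hom (HC (frBi a)) Y := tr0 (frBi a) (frGH a) (frG_comm a)

@[simp] theorem frAug_nil (r : A.V) (y : Y.V) :
    (frAug a).f (Wd.nil (r ⊗ₜ y)) = a.act y (A.P r) + a.act (Y.E y) (r - A.P r) := by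
  unfold frAug
  rw [tr0_nil]
  exact frG_tmul a r y

@[simp] theorem frAug_snoc (w : Wd k (A.V ⊗[k] Y.V) A.V) (r : A.V) :
    (frAug a).f (Wd.snoc w r) = 0 := by
  unfold frAug
  rw [tr0_snoc]

/-! ### the contraction: the factor `a` of the head becomes the last letter -/

/-- words with head `1 ⊗ y`, tensor a letter -/
abbrev FrT (A : DGA k) (Y : SD k) : Type := Wd k (A.V ⊗[k] Y.V) A.V ⊗[k] A.V

/-- `v ⊗ a ↦ (u v) ⊗ (g a)` -/
def frMap (A : DGA k) (Y : SD k) (u : Wd k (A.V ⊗[k] Y.V) A.V →ₗ[k] Wd k (A.V ⊗[k] Y.V) A.V)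
    (g : A.V →ₗ[k] A.V) : FrT A Y →ₗ[k] FrT A Y := TensorProduct.map u g

@[simp] theorem frMap_tmul (u : Wd k (A.V ⊗[k] Y.V) A.V →ₗ[k] Wd k (A.V ⊗[k] Y.V) A.V)
    (g : A.V →ₗ[k] A.V) (v : Wd k (A.V ⊗[k] Y.V) A.V) (r : A.V) :
    frMap A Y u g (v ⊗ₜ r) = u v ⊗ₜ g r := rfl

/-- the operator that inserts a letter before the last one -/
def frS (A : DGA k) (Y : SD k) : FrT A Y →ₗ[k] A.V →ₗ[k] FrT A Y :=
  ((TensorProduct.mapBilinear (RingHom.id k) (Wd k (A.V ⊗[k] Y.V) A.V) A.V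
      (Wd k (A.V ⊗[k] Y.V) A.V) A.V).flip (LinearMap.id - A.P) ∘ₗ Wd.snoc.flip
    - (TensorProduct.mapBilinear (RingHom.id k) (Wd k (A.V ⊗[k] Y.V) A.V) A.V
      (Wd k (A.V ⊗[k] Y.V) A.V) A.V).flip A.P ∘ₗ Wd.snoc.flip ∘ₗ A.E).flip

@[simp] theorem frS_tmul (v : Wd k (A.V ⊗[k] Y.V) A.V) (s r : A.V) :
    frS A Y (v ⊗ₜ s) r = Wd.snoc v r ⊗ₜ (s - A.P s) - Wd.snoc v (A.E r) ⊗ₜ A.P s := rfl

/-- `a ⊗ y ↦ - nil (1 ⊗ E y) ⊗ P a - nil (1 ⊗ y) ⊗ (a - P a)` -/
def frG0 (A : DGA k) (Y : SD k) : (A.V ⊗[k] Y.V) →ₗ[k] FrT A Y :=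
  TensorProduct.lift (-(LinearMap.mk₂ k (fun (r : A.V) (y : Y.V) =>
      ((Wd.nil ((1 : A.V) ⊗ₜ[k] Y.E y) ⊗ₜ[k] A.P r
        + Wd.nil ((1 : A.V) ⊗ₜ[k] y) ⊗ₜ[k] (r - A.P r) : FrT A Y)))
    (fun r r' y => by
      simp only [map_add, TensorProduct.tmul_add, TensorProduct.tmul_sub]; abel)
    (fun c r y => by
      simp only [map_smul, TensorProduct.tmul_smul, TensorProduct.tmul_sub, smul_add, smul_sub])
    (fun r y y' => by
      simp only [map_add, TensorProduct.tmul_add, TensorProduct.tmul_sub,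
        TensorProduct.add_tmul]; abel)
    (fun c r y => by
      simp only [map_smul, TensorProduct.tmul_smul, TensorProduct.tmul_sub, smul_add, smul_sub]
      simp only [← TensorProduct.smul_tmul', map_smul])))

@[simp] theorem frG0_tmul (r : A.V) (y : Y.V) : frG0 A Y (r ⊗ₜ y)
    = -(Wd.nil ((1 : A.V) ⊗ₜ[k] Y.E y) ⊗ₜ[k] A.P r
        + Wd.nil ((1 : A.V) ⊗ₜ[k] y) ⊗ₜ[k] (r - A.P r)) := rfl

/-- rotation of the factor `a` to the end -/
def frR (A : DGA k) (Y : SD k) : Wd k (A.V ⊗[k] Y.V) A.V →ₗ[k] FrT A Y :=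
  Wd.recW (frG0 A Y) 0 (frS A Y)

@[simp] theorem frR_nil (n : A.V ⊗[k] Y.V) : frR A Y (Wd.nil n) = frG0 A Y n := by
  simp [frR]

@[simp] theorem frR_snoc (w : Wd k (A.V ⊗[k] Y.V) A.V) (r : A.V) :
    frR A Y (Wd.snoc w r) = frS A Y (frR A Y w) r := by
  simp [frR]

/-- the append map -/
def frA (A : DGA k) (Y : SD k) : FrT A Y →ₗ[k] Wd k (A.V ⊗[k] Y.V) A.V :=
  TensorProduct.lift Wd.snoc

@[simp] theorem frA_tmul (v : Wd k (A.V ⊗[k] Y.V) A.V) (r : A.V) :
    frA A Y (v ⊗ₜ r) = Wd.snoc v r := by simp [frA]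

/-- reduction of identities on words to words with pure head and induction -/
theorem fr_ind {Z : Type} [AddCommGroup Z] [Module k Z]
    {f g : Wd k (A.V ⊗[k] Y.V) A.V →ₗ[k] Z}
    (h0 : ∀ (r : A.V) (y : Y.V), f (Wd.nil (r ⊗ₜ y)) = g (Wd.nil (r ⊗ₜ y)))
    (h1 : ∀ w, f w = g w → ∀ r, f (Wd.snoc w r) = g (Wd.snoc w r))
    (w : Wd k (A.V ⊗[k] Y.V) A.V) : f w = g w := by
  refine Wd.ext_apply (fun n => ?_) h1 w
  exact tens_ext (f := f ∘ₗ Wd.nil) (g := g ∘ₗ Wd.nil) h0 n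

/-- `EW` on words with head in `A ⊗ Y` -/
def frE (A : DGA k) (Y : SD k) : Wd k (A.V ⊗[k] Y.V) A.V →ₗ[k] Wd k (A.V ⊗[k] Y.V) A.V :=
  EW (A.toSD.tens Y) A.toSD

@[simp] theorem frE_nil (r : A.V) (y : Y.V) :
    frE A Y (Wd.nil (r ⊗ₜ y)) = Wd.nil (A.E r ⊗ₜ Y.E y) := by
  unfold frE
  refine (EW_nil (A.toSD.tens Y) A.toSD (r ⊗ₜ y)).trans ?_
  rw [SD.tens_E]

@[simp] theorem frE_snoc (w : Wd k (A.V ⊗[k] Y.V) A.V) (r : A.V) :
    frE A Y (Wd.snoc w r) = - Wd.snoc (frE A Y w) (A.E r) :=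
  EW_snoc (A.toSD.tens Y) A.toSD w r

theorem frE_frE (w : Wd k (A.V ⊗[k] Y.V) A.V) : frE A Y (frE A Y w) = w :=
  EW_EW (A.toSD.tens Y) A.toSD w

/-- tail multiplication on words with head in `A ⊗ Y` -/
def frTl : Wd k (A.V ⊗[k] Y.V) A.V →ₗ[k] A.V →ₗ[k] Wd k (A.V ⊗[k] Y.V) A.V :=
  tl A (frBi a).r.act

@[simp] theorem frTl_nil (s : A.V) (y : Y.V) (r : A.V) :
    frTl a (Wd.nil (s ⊗ₜ y)) r = Wd.nil (s ⊗ₜ a.act y r) :=
  tl_nil A (frBi a).r.act (s ⊗ₜ y) r

@[simp] theorem frTl_snoc (w : Wd k (A.V ⊗[k] Y.V) A.V) (s r : A.V) :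
    frTl a (Wd.snoc w s) r = Wd.snoc w (s * r) :=
  tl_snoc A (frBi a).r.act w s r

/-- the bar differential on words with head in `A ⊗ Y` -/
def frD : Wd k (A.V ⊗[k] Y.V) A.V →ₗ[k] Wd k (A.V ⊗[k] Y.V) A.V := Db (frBi a).r

@[simp] theorem frD_nil (r : A.V) (y : Y.V) :
    frD a (Wd.nil (r ⊗ₜ y)) = Wd.nil (A.D r ⊗ₜ y) + Wd.nil (A.E r ⊗ₜ Y.D y) := by
  rw [← map_add]
  exact Db_nil (frBi a).r (r ⊗ₜ y)

@[simp] theorem frD_snoc (w : Wd k (A.V ⊗[k] Y.V) A.V) (r : A.V) :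
    frD a (Wd.snoc w r) = Wd.snoc (frD a w) r - Wd.snoc (frE A Y w) (A.D r)
      + frTl a (frE A Y w) r :=
  Db_snoc (frBi a).r w r

/-- left multiplication of the head on words with head in `A ⊗ Y` -/
def frH : A.V →ₗ[k] Wd k (A.V ⊗[k] Y.V) A.V →ₗ[k] Wd k (A.V ⊗[k] Y.V) A.V :=
  hd A (frBi a).l

@[simp] theorem frH_nil (s r : A.V) (y : Y.V) :
    frH a s (Wd.nil (r ⊗ₜ y)) = Wd.nil ((s * r) ⊗ₜ y) :=
  hd_nil (R := A) (frBi a).l s (r ⊗ₜ y)

@[simp] theorem frH_snoc (s : A.V) (w : Wd k (A.V ⊗[k] Y.V) A.V) (r : A.V) :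
    frH a s (Wd.snoc w r) = Wd.snoc (frH a s w) r :=
  hd_snoc (frBi a).l s w r

/-- the wrap operator on words with head in `A ⊗ Y` -/
def frO : Wd k (A.V ⊗[k] Y.V) A.V →ₗ[k] Wd k (A.V ⊗[k] Y.V) A.V := om (frBi a).l

@[simp] theorem frO_nil (n : A.V ⊗[k] Y.V) : frO a (Wd.nil n) = 0 :=
  om_nil (frBi a).l n

@[simp] theorem frO_snoc (w : Wd k (A.V ⊗[k] Y.V) A.V) (r : A.V) :
    frO a (Wd.snoc w r) = frH a (A.P r) (frE A Y w) + frH a (r - A.P r) w :=
  om_snoc (frBi a).l w r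

/-! ### the commutation rules of the rotation -/

theorem frR_E (w : Wd k (A.V ⊗[k] Y.V) A.V) :
    frR A Y (frE A Y w) = frMap A Y (frE A Y) A.E (frR A Y w) := by
  refine fr_ind (f := frR A Y ∘ₗ frE A Y)
    (g := frMap A Y (frE A Y) A.E ∘ₗ frR A Y) (fun r y => ?_)
    (fun w hw r => ?_) w
  · simp only [LinearMap.comp_apply, frE_nil, frR_nil, frG0_tmul, map_neg, map_add, frMap_tmul,
      A.E_one, Y.EE, A.PE, A.EP, map_sub]
  · simp only [LinearMap.comp_apply, frE_snoc, frR_snoc, map_neg] at hw ⊢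
    rw [hw]
    generalize frR A Y w = z
    refine tens_ext (f := -((frS A Y).flip (A.E r) ∘ₗ frMap A Y (frE A Y) A.E))
      (g := frMap A Y (frE A Y) A.E ∘ₗ (frS A Y).flip r) (fun v s => ?_) z
    simp only [LinearMap.neg_apply, LinearMap.comp_apply, LinearMap.flip_apply, frMap_tmul,
      frS_tmul, map_sub, frE_snoc, A.EE, A.PE, A.EP, TensorProduct.neg_tmul,
      TensorProduct.tmul_sub]
    rw [SD.E_apply]
    abel

/-- tail multiplication on rotated words -/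
def frT' : FrT A Y →ₗ[k] A.V →ₗ[k] FrT A Y :=
  ((TensorProduct.mapBilinear (RingHom.id k) (Wd k (A.V ⊗[k] Y.V) A.V) A.V
      (Wd k (A.V ⊗[k] Y.V) A.V) A.V).flip (LinearMap.id - A.P) ∘ₗ (frTl a).flip
    + (TensorProduct.mapBilinear (RingHom.id k) (Wd k (A.V ⊗[k] Y.V) A.V) A.V
      (Wd k (A.V ⊗[k] Y.V) A.V) A.V).flip A.P ∘ₗ (frTl a).flip ∘ₗ A.E).flip

@[simp] theorem frT'_tmul (v : Wd k (A.V ⊗[k] Y.V) A.V) (s r : A.V) :
    frT' a (v ⊗ₜ s) r = frTl a v r ⊗ₜ (s - A.P s) + frTl a v (A.E r) ⊗ₜ A.P s := rfl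

theorem frR_Tl (w : Wd k (A.V ⊗[k] Y.V) A.V) (r : A.V) :
    frR A Y (frTl a w r) = frT' a (frR A Y w) r := by
  refine fr_ind (f := frR A Y ∘ₗ (frTl a).flip r)
    (g := (frT' a).flip r ∘ₗ frR A Y) (fun s y => ?_)
    (fun w hw s => ?_) w
  · simp only [LinearMap.comp_apply, LinearMap.flip_apply, frTl_nil, frR_nil, frG0_tmul,
      map_neg, map_add, LinearMap.neg_apply, LinearMap.add_apply, frT'_tmul, a.E_act, A.PP,
      map_sub, sub_self, TensorProduct.tmul_zero, sub_zero, zero_add, add_zero]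
  · simp only [LinearMap.comp_apply, LinearMap.flip_apply, frTl_snoc, frR_snoc]
    generalize frR A Y w = z
    refine tens_ext (f := (frS A Y).flip (s * r))
      (g := (frT' a).flip r ∘ₗ (frS A Y).flip s) (fun v q => ?_) z
    simp only [LinearMap.comp_apply, LinearMap.flip_apply, frS_tmul, map_sub,
      LinearMap.sub_apply, frT'_tmul, frTl_snoc, A.PP, sub_self, TensorProduct.tmul_zero,
      sub_zero, zero_add, add_zero, A.E_mul]

theorem frR_D (w : Wd k (A.V ⊗[k] Y.V) A.V) :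
    frR A Y (frD a w) = - frMap A Y (frD a) LinearMap.id (frR A Y w)
      + frMap A Y (frE A Y) A.D (frR A Y w) := by
  refine fr_ind (f := frR A Y ∘ₗ frD a)
    (g := -(frMap A Y (frD a) LinearMap.id ∘ₗ frR A Y)
      + frMap A Y (frE A Y) A.D ∘ₗ frR A Y) (fun r y => ?_)
    (fun w hw r => ?_) w
  · simp only [LinearMap.comp_apply, frD_nil, frR_nil, frG0_tmul, map_neg, map_add, frMap_tmul,
      A.E_one, Y.EE, A.PE, A.DP, map_sub, LinearMap.neg_apply, LinearMap.add_apply,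
      LinearMap.id_apply, A.D_one, TensorProduct.zero_tmul, map_zero, zero_add, frE_nil, Y.DE]
    simp only [SD.E_apply, TensorProduct.tmul_sub, TensorProduct.tmul_add, map_neg,
      TensorProduct.neg_tmul, TensorProduct.tmul_neg]
    abel
  · simp only [LinearMap.comp_apply, LinearMap.neg_apply, LinearMap.add_apply] at hw ⊢
    simp only [frD_snoc, frR_snoc, map_sub, map_add, hw, frR_E, frR_Tl]
    generalize frR A Y w = z
    have key := tens_ext (f := (frS A Y).flip r ∘ₗ (-(frMap A Y (frD a) LinearMap.id)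
        + frMap A Y (frE A Y) A.D) - (frS A Y).flip (A.D r) ∘ₗ frMap A Y (frE A Y) A.E
        + (frT' a).flip r ∘ₗ frMap A Y (frE A Y) A.E)
      (g := -(frMap A Y (frD a) LinearMap.id ∘ₗ (frS A Y).flip r)
        + frMap A Y (frE A Y) A.D ∘ₗ (frS A Y).flip r) (fun v s => ?_) z
    · simp only [LinearMap.comp_apply, LinearMap.flip_apply, LinearMap.neg_apply,
        LinearMap.add_apply, LinearMap.sub_apply, map_add, map_neg] at key ⊢
      exact key
    simp only [LinearMap.comp_apply, LinearMap.flip_apply, LinearMap.neg_apply,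
      LinearMap.add_apply, LinearMap.sub_apply, frMap_tmul, frS_tmul, frT'_tmul, map_sub,
      map_add, map_neg, LinearMap.id_apply, frD_snoc, frE_snoc, A.DP, A.PE, A.EE, A.DE,
      TensorProduct.neg_tmul, TensorProduct.tmul_sub, TensorProduct.add_tmul,
      TensorProduct.sub_tmul]
    simp only [SD.E_apply, TensorProduct.tmul_sub, TensorProduct.tmul_add, map_sub, map_add,
      TensorProduct.sub_tmul, TensorProduct.add_tmul]
    abel

theorem frR_H (q : A.V) (w : Wd k (A.V ⊗[k] Y.V) A.V) :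
    frR A Y (frH a q w) = frMap A Y LinearMap.id (LinearMap.mulLeft k (A.P q)) (frR A Y w)
      + frMap A Y (frE A Y) (LinearMap.mulLeft k (q - A.P q)) (frR A Y w) := by
  refine fr_ind (f := frR A Y ∘ₗ frH a q)
    (g := frMap A Y LinearMap.id (LinearMap.mulLeft k (A.P q)) ∘ₗ frR A Y
      + frMap A Y (frE A Y) (LinearMap.mulLeft k (q - A.P q)) ∘ₗ frR A Y) (fun r y => ?_)
    (fun w hw r => ?_) w
  · have hP : A.P (q * r) = A.P q * A.P r + (q - A.P q) * (r - A.P r) := A.P_mul q r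
    simp only [LinearMap.comp_apply, LinearMap.add_apply, frH_nil, frR_nil, frG0_tmul, map_neg,
      map_add, frMap_tmul, LinearMap.id_apply, frE_nil, A.E_one, Y.EE, LinearMap.mulLeft_apply, hP]
    simp only [sub_mul, mul_sub, TensorProduct.tmul_sub, TensorProduct.tmul_add]
    abel
  · simp only [LinearMap.comp_apply, LinearMap.add_apply] at hw ⊢
    simp only [frH_snoc, frR_snoc, hw, map_add, LinearMap.add_apply]
    generalize frR A Y w = z
    have key := tens_ext (f := (frS A Y).flip r ∘ₗ frMap A Y LinearMap.id (LinearMap.mulLeft k (A.P q))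
        + (frS A Y).flip r ∘ₗ frMap A Y (frE A Y) (LinearMap.mulLeft k (q - A.P q)))
      (g := frMap A Y LinearMap.id (LinearMap.mulLeft k (A.P q)) ∘ₗ (frS A Y).flip r
        + frMap A Y (frE A Y) (LinearMap.mulLeft k (q - A.P q)) ∘ₗ (frS A Y).flip r) (fun v s => ?_) z
    · simp only [LinearMap.comp_apply, LinearMap.flip_apply, LinearMap.add_apply] at key ⊢
      exact key
    have h1 : A.P (A.P q * s) = A.P q * A.P s := by
      have h0 : A.P (A.P q * s) = A.P (A.P q) * A.P s + (A.P q - A.P (A.P q)) * (s - A.P s) :=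
        A.P_mul (A.P q) s
      rw [h0, A.PP, sub_self, zero_mul, add_zero]
    have h2 : A.P ((q - A.P q) * s) = (q - A.P q) * (s - A.P s) := by
      have h0 : A.P ((q - A.P q) * s) = A.P (q - A.P q) * A.P s
          + ((q - A.P q) - A.P (q - A.P q)) * (s - A.P s) := A.P_mul (q - A.P q) s
      rw [h0, map_sub, A.PP, sub_self, zero_mul, zero_add, sub_zero]
    simp only [LinearMap.comp_apply, LinearMap.flip_apply, LinearMap.add_apply, frMap_tmul,
      frS_tmul, map_sub, LinearMap.id_apply, frE_snoc, LinearMap.mulLeft_apply, h1, h2, A.EE,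
      TensorProduct.neg_tmul]
    simp only [sub_mul, mul_sub, TensorProduct.tmul_sub]
    abel

/-- the wrapped letter: `v ⊗ a ↦ a v` (with sign) -/
def frK : FrT A Y →ₗ[k] Wd k (A.V ⊗[k] Y.V) A.V :=
  TensorProduct.lift ((frH a ∘ₗ A.P).flip ∘ₗ frE A Y + (frH a ∘ₗ (LinearMap.id - A.P)).flip)

@[simp] theorem frK_tmul (v : Wd k (A.V ⊗[k] Y.V) A.V) (r : A.V) :
    frK a (v ⊗ₜ r) = frH a (A.P r) (frE A Y v) + frH a (r - A.P r) v := by
  simp [frK]

theorem frK_frR (w : Wd k (A.V ⊗[k] Y.V) A.V) : frK a (frR A Y w) = - w := by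
  refine fr_ind (f := frK a ∘ₗ frR A Y) (g := -LinearMap.id) (fun r y => ?_)
    (fun w hw r => ?_) w
  · simp only [LinearMap.comp_apply, frR_nil, frG0_tmul, map_neg, map_add, frK_tmul, frE_nil,
      A.E_one, Y.EE, frH_nil, mul_one, A.PP, sub_self, map_sub, LinearMap.zero_apply,
      LinearMap.neg_apply, LinearMap.id_apply, LinearMap.sub_apply, add_zero, sub_zero,
      map_zero, zero_add, TensorProduct.sub_tmul]
    abel
  · simp only [LinearMap.comp_apply, LinearMap.neg_apply, LinearMap.id_apply] at hw ⊢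
    have h1 : frK a (frS A Y (frR A Y w) r) = Wd.snoc (frK a (frR A Y w)) r := by
      generalize frR A Y w = z
      refine tens_ext (f := frK a ∘ₗ (frS A Y).flip r) (g := Wd.snoc.flip r ∘ₗ frK a)
        (fun v s => ?_) z
      simp only [LinearMap.comp_apply, LinearMap.flip_apply, frS_tmul, map_sub, frK_tmul,
        A.PP, sub_self, LinearMap.sub_apply, LinearMap.zero_apply, map_zero, frE_snoc,
        map_neg, frH_snoc, A.EE]
      simp
      abel
    rw [frR_snoc, h1, hw, map_neg, LinearMap.neg_apply]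

/-- tail multiplication by the rotated letter -/
def frX : FrT A Y →ₗ[k] Wd k (A.V ⊗[k] Y.V) A.V :=
  TensorProduct.lift (frTl a ∘ₗ frE A Y)

@[simp] theorem frX_tmul (v : Wd k (A.V ⊗[k] Y.V) A.V) (r : A.V) :
    frX a (v ⊗ₜ r) = frTl a (frE A Y v) r := by
  simp [frX]

/-- the augmentation as a linear map -/
def frAu : Wd k (A.V ⊗[k] Y.V) A.V →ₗ[k] Y.V := (frAug a).f

@[simp] theorem frAu_nil (r : A.V) (y : Y.V) :
    frAu a (Wd.nil (r ⊗ₜ y)) = a.act y (A.P r) + a.act (Y.E y) (r - A.P r) := frAug_nil a r y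

@[simp] theorem frAu_snoc (w : Wd k (A.V ⊗[k] Y.V) A.V) (r : A.V) :
    frAu a (Wd.snoc w r) = 0 := frAug_snoc a w r

/-- the inclusion `y ↦ nil (1 ⊗ y)` -/
def frI (A : DGA k) (Y : SD k) : Y.V →ₗ[k] Wd k (A.V ⊗[k] Y.V) A.V :=
  Wd.nil ∘ₗ TensorProduct.mk k A.V Y.V 1

@[simp] theorem frI_apply (y : Y.V) : frI A Y y = Wd.nil ((1 : A.V) ⊗ₜ y) := rfl

theorem frX_frR (w : Wd k (A.V ⊗[k] Y.V) A.V) :
    frX a (frR A Y w) = frA A Y (frR A Y (frO a w)) - frI A Y (frAu a w) := by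
  refine fr_ind (f := frX a ∘ₗ frR A Y)
    (g := frA A Y ∘ₗ frR A Y ∘ₗ frO a - frI A Y ∘ₗ frAu a) (fun r y => ?_)
    (fun w hw r => ?_) w
  · simp only [LinearMap.comp_apply, LinearMap.sub_apply, frR_nil, frG0_tmul, map_neg, map_add,
      frX_tmul, frE_nil, A.E_one, Y.EE, frTl_nil, frO_nil, map_zero, frAu_nil, frI_apply,
      TensorProduct.tmul_add]
    abel
  · simp only [LinearMap.comp_apply, LinearMap.sub_apply, frO_snoc, frAu_snoc, map_zero,
      sub_zero, map_add, frR_snoc, frR_H, frR_E, A.PP, map_sub, sub_self,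
      LinearMap.zero_apply]
    generalize frR A Y w = z
    have key := tens_ext (f := frX a ∘ₗ (frS A Y).flip r)
      (g := frA A Y ∘ₗ (frMap A Y LinearMap.id (LinearMap.mulLeft k (A.P r)) ∘ₗ frMap A Y (frE A Y) A.E)
        + frA A Y ∘ₗ frMap A Y (frE A Y) (LinearMap.mulLeft k (r - A.P r))) (fun v s => ?_) z
    · have h3 : ∀ u, frMap A Y u (0 : A.V →ₗ[k] A.V) = 0 := by
        intro u
        refine TensorProduct.ext' (fun x y => ?_)
        rw [frMap_tmul]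
        simp
      simp only [LinearMap.comp_apply, LinearMap.flip_apply, LinearMap.add_apply, map_sub]
        at key
      have h4 : (LinearMap.mulLeft k (0 : A.V)) = 0 := by
        ext x
        simp
      rw [h4, h3, LinearMap.zero_apply, LinearMap.zero_apply, map_zero, key]
      abel
    simp only [LinearMap.comp_apply, LinearMap.flip_apply, LinearMap.add_apply, frS_tmul,
      frX_tmul, frE_snoc, map_sub, map_neg, LinearMap.neg_apply, frTl_snoc, frMap_tmul,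
      frA_tmul, LinearMap.id_apply, LinearMap.mulLeft_apply, A.EE]
    simp only [SD.E_apply, sub_mul, mul_sub, add_mul, mul_add, map_sub, map_add]
    abel

/-- the differential of the append map -/
theorem hcD_frA (z : FrT A Y) :
    hcD (frBi a) (frA A Y z) = frA A Y (frMap A Y (frD a) LinearMap.id z)
      - frA A Y (frMap A Y (frE A Y) A.D z) + frX a z - frK a z := by
  refine tens_ext (f := hcD (frBi a) ∘ₗ frA A Y)
    (g := frA A Y ∘ₗ frMap A Y (frD a) LinearMap.id - frA A Y ∘ₗ frMap A Y (frE A Y) A.D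
      + frX a - frK a) (fun v s => ?_) z
  have h1 : hcD (frBi a) (Wd.snoc v s) = frD a (Wd.snoc v s) - frO a (Wd.snoc v s) := rfl
  simp only [LinearMap.comp_apply, LinearMap.sub_apply, LinearMap.add_apply, frA_tmul,
    frMap_tmul, LinearMap.id_apply, frX_tmul, frK_tmul, h1, frD_snoc, frO_snoc]

/-- the contraction -/
def frh (A : DGA k) (Y : SD k) : Wd k (A.V ⊗[k] Y.V) A.V →ₗ[k] Wd k (A.V ⊗[k] Y.V) A.V :=
  frA A Y ∘ₗ frR A Y

theorem frh_htp (w : Wd k (A.V ⊗[k] Y.V) A.V) :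
    hcD (frBi a) (frh A Y w) + frh A Y (hcD (frBi a) w) = w - frI A Y (frAu a w) := by
  have h1 : frh A Y (hcD (frBi a) w)
      = frA A Y (frR A Y (frD a w)) - frA A Y (frR A Y (frO a w)) := by
    change frA A Y (frR A Y (frD a w - frO a w)) = _
    rw [map_sub, map_sub]
  have h2 : hcD (frBi a) (frh A Y w) = hcD (frBi a) (frA A Y (frR A Y w)) := rfl
  rw [h1, h2, hcD_frA, frX_frR, frK_frR, frR_D, map_add, map_neg]
  abel

/-- `HC (A ⊗ Y) → Y` is a quasi-isomorphism for a unital right module `Y` -/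
theorem frAug_QI (hu : ∀ y, a.act y 1 = y) : (frAug a).QI := by
  have hι : ∀ y : Y.V, hcD (frBi a) (frI A Y y) = frI A Y (Y.D y) := by
    intro y
    have h1 : hcD (frBi a) (frI A Y y)
        = frD a (Wd.nil ((1 : A.V) ⊗ₜ y)) - frO a (Wd.nil ((1 : A.V) ⊗ₜ y)) := rfl
    rw [h1, frD_nil, frO_nil, A.D_one, TensorProduct.zero_tmul, map_zero, A.E_one, frI_apply]
    abel
  have hε : ∀ y : Y.V, frAu a (frI A Y y) = y := by
    intro y
    have h1 : A.P 1 = 1 := A.P_one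
    rw [frI_apply, frAu_nil, h1, sub_self, map_zero, add_zero, hu]
  constructor
  · intro x y hx hxy
    have hx' : hcD (frBi a) x = 0 := hx
    have hxy' : frAu a x = Y.D y := hxy
    have h1 := frh_htp a x
    rw [hx', map_zero, add_zero, hxy', ← hι] at h1
    refine ⟨frh A Y x + frI A Y y, ?_⟩
    change hcD (frBi a) (frh A Y x + frI A Y y) = x
    rw [map_add, h1]
    abel
  · intro y hy
    refine ⟨frI A Y y, 0, ?_, ?_⟩
    · change hcD (frBi a) (frI A Y y) = 0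
      rw [hι, hy, map_zero]
    · rw [map_zero, add_zero]
      exact (hε y).symm

end NC
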