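import Pool.Agent.H16.NC.HC

/-!
# HCMap : functoriality and exactness of the Hochschild complex in the coefficients
-/

set_option autoImplicit false

open scoped TensorProduct

noncomputable section

namespace NC

variable {k : Type} [Field k]

/-! ### linear algebra of `Wd.map` on the head -/

namespace Wd

variable {N N' N'' R : Type} [AddCommGroup N] [Module k N] [AddCommGroup N'] [Module k N']
  [AddCommGroup N''] [Module k N''] [AddCommGroup R] [Module k R]

/-- apply a linear map to the head -/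
def mh (R : Type) [AddCommGroup R] [Module k R] (f : N →ₗ[k] N') : Wd k N R →ₗ[k] Wd k N' R :=
  Wd.map f LinearMap.id

@[simp] theorem mh_nil (f : N →ₗ[k] N') (n : N) : mh R f (nil n) = nil (f n) := by
  simp [mh]

@[simp] theorem mh_snoc (f : N →ₗ[k] N') (w : Wd k N R) (r : R) :
    mh R f (snoc w r) = snoc (mh R f w) r := by
  simp [mh]

theorem mh_add (f g : N →ₗ[k] N') (w : Wd k N R) : mh R (f + g) w = mh R f w + mh R g w := by
  induction w using Wd.induction with
  | hadd a b ha hb => simp only [map_add, ha, hb]; abel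
  | hnil n => simp
  | hsnoc w hw r => simp [hw]

theorem mh_neg (f : N →ₗ[k] N') (w : Wd k N R) : mh R (-f) w = - mh R f w := by
  induction w using Wd.induction with
  | hadd a b ha hb => simp only [map_add, ha, hb]; abel
  | hnil n => simp
  | hsnoc w hw r => simp [hw]

theorem mh_sub (f g : N →ₗ[k] N') (w : Wd k N R) : mh R (f - g) w = mh R f w - mh R g w := by
  rw [sub_eq_add_neg, mh_add, mh_neg, sub_eq_add_neg]

theorem mh_smul (c : k) (f : N →ₗ[k] N') (w : Wd k N R) : mh R (c • f) w = c • mh R f w := by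
  induction w using Wd.induction with
  | hadd a b ha hb => simp only [map_add, ha, hb, smul_add]
  | hnil n => simp
  | hsnoc w hw r => simp [hw]

theorem mh_comp (g : N' →ₗ[k] N'') (f : N →ₗ[k] N') (w : Wd k N R) :
    mh R g (mh R f w) = mh R (g ∘ₗ f) w := by
  induction w using Wd.induction with
  | hadd a b ha hb => simp only [map_add, ha, hb]
  | hnil n => simp
  | hsnoc w hw r => simp [hw]

theorem mh_id (w : Wd k N R) : mh R (LinearMap.id : N →ₗ[k] N) w = w := by
  induction w using Wd.induction with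
  | hadd a b ha hb => simp only [map_add, ha, hb]
  | hnil n => simp
  | hsnoc w hw r => simp [hw]

theorem mh_zero (w : Wd k N R) : mh R (0 : N →ₗ[k] N') w = 0 := by
  induction w using Wd.induction with
  | hadd a b ha hb => simp only [map_add, ha, hb, add_zero]
  | hnil n => simp
  | hsnoc w hw r => simp [hw]

theorem mh_congr {f g : N →ₗ[k] N'} (h : ∀ n, f n = g n) (w : Wd k N R) : mh R f w = mh R g w := by
  have : f = g := LinearMap.ext h
  rw [this]

theorem mh_left_inv {f : N →ₗ[k] N'} {g : N' →ₗ[k] N} (h : ∀ n, g (f n) = n) (w : Wd k N R) :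
    mh R g (mh R f w) = w := by
  rw [mh_comp, mh_congr (g := LinearMap.id) (fun n => h n), mh_id]

theorem mh_injective {f : N →ₗ[k] N'} (hf : Function.Injective f) :
    Function.Injective (mh R f) := by
  obtain ⟨g, hg⟩ := f.exists_leftInverse_of_injective (LinearMap.ker_eq_bot.2 hf)
  intro a b hab
  have h := congrArg (mh R g) hab
  rwa [mh_left_inv (fun n => LinearMap.congr_fun hg n),
    mh_left_inv (fun n => LinearMap.congr_fun hg n)] at h

theorem mh_surjective {f : N →ₗ[k] N'} (hf : Function.Surjective f) :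
    Function.Surjective (mh R f) := by
  obtain ⟨g, hg⟩ := f.exists_rightInverse_of_surjective (LinearMap.range_eq_top.2 hf)
  intro a
  exact ⟨mh R g a, mh_left_inv (fun n => LinearMap.congr_fun hg n) a⟩

/-- splitting of an exact pair `f`, `g` with `g` surjective -/
theorem exists_split {f : N' →ₗ[k] N} {g : N →ₗ[k] N''} (hf : Function.Injective f)
    (hg : Function.Surjective g) (h0 : ∀ x, g (f x) = 0) (he : ∀ y, g y = 0 → ∃ x, f x = y) :
    ∃ (r : N →ₗ[k] N') (s : N'' →ₗ[k] N), (∀ x, r (f x) = x) ∧ (∀ z, g (s z) = z) ∧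
      (∀ y, f (r y) + s (g y) = y) := by
  obtain ⟨s, hs⟩ := g.exists_rightInverse_of_surjective (LinearMap.range_eq_top.2 hg)
  obtain ⟨r, hr⟩ := f.exists_leftInverse_of_injective (LinearMap.ker_eq_bot.2 hf)
  have hs' : ∀ z, g (s z) = z := fun z => LinearMap.congr_fun hs z
  have hr' : ∀ x, r (f x) = x := fun x => LinearMap.congr_fun hr x
  refine ⟨r ∘ₗ (LinearMap.id - s ∘ₗ g), s, fun x => ?_, hs', fun y => ?_⟩
  · simp [h0, hr']
  · have h1 : g (y - s (g y)) = 0 := by rw [map_sub, hs', sub_self]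
    obtain ⟨x, hx⟩ := he _ h1
    simp only [LinearMap.comp_apply, LinearMap.sub_apply, LinearMap.id_apply]
    rw [← hx, hr', hx]
    abel

end Wd

/-! ### operators and maps of the head -/

section

variable {N N' : SD k}

theorem PW_mh (R : SD k) (φ : SD.Hom N N') (w : Wd k N.V R.V) :
    PW N' R (Wd.mh R.V φ.f w) = Wd.mh R.V φ.f (PW N R w) := by
  induction w using Wd.induction with
  | hadd a b ha hb => simp only [map_add, ha, hb]
  | hnil n => simp [φ.P]
  | hsnoc w hw r => simp [hw]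

theorem EW_mh (R : SD k) (φ : SD.Hom N N') (w : Wd k N.V R.V) :
    EW N' R (Wd.mh R.V φ.f w) = Wd.mh R.V φ.f (EW N R w) := by
  simp only [EW_apply, PW_mh, map_add, map_sub]

theorem tl_mh {R : DGA k} (ρ : RA R N) (ρ' : RA R N') (f : N.V →ₗ[k] N'.V)
    (h : ∀ n a, f (ρ.act n a) = ρ'.act (f n) a) (w : Wd k N.V R.V) (r : R.V) :
    tl R ρ'.act (Wd.mh R.V f w) r = Wd.mh R.V f (tl R ρ.act w r) := by
  induction w using Wd.induction with
  | hadd a b ha hb => simp only [map_add, LinearMap.add_apply, ha, hb]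
  | hnil n => simp [h]
  | hsnoc w hw s => simp

theorem hd_mh {R S : DGA k} (l : LA S N) (l' : LA S N') (f : N.V →ₗ[k] N'.V) (g : S.V → S.V)
    (h : ∀ a n, f (l.act a n) = l'.act (g a) (f n)) (s : S.V) (w : Wd k N.V R.V) :
    hd R l' (g s) (Wd.mh R.V f w) = Wd.mh R.V f (hd R l s w) := by
  induction w using Wd.induction with
  | hadd a b ha hb => simp only [map_add, ha, hb]
  | hnil n => simp [h]
  | hsnoc w hw r => simp [hw]

theorem Db_mh {R : DGA k} (ρ : RA R N) (ρ' : RA R N') (φ : SD.Hom N N') (h : ρ.IsHom ρ' φ)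
    (w : Wd k N.V R.V) : Db ρ' (Wd.mh R.V φ.f w) = Wd.mh R.V φ.f (Db ρ w) := by
  induction w using Wd.induction with
  | hadd a b ha hb => simp only [map_add, ha, hb]
  | hnil n => simp [φ.D]
  | hsnoc w hw r =>
    simp only [Wd.mh_snoc, Db_snoc, map_add, map_sub, hw, EW_mh, tl_mh ρ ρ' φ.f h]

theorem om_mh {R : DGA k} (l : LA R N) (l' : LA R N') (φ : SD.Hom N N') (h : l.IsHom l' φ)
    (w : Wd k N.V R.V) : om l' (Wd.mh R.V φ.f w) = Wd.mh R.V φ.f (om l w) := by
  induction w using Wd.induction with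
  | hadd a b ha hb => simp only [map_add, ha, hb]
  | hnil n => simp
  | hsnoc w _ r =>
    simp only [Wd.mh_snoc, om_snoc, map_add, EW_mh]
    rw [← hd_mh l l' φ.f id h (R.P r), ← hd_mh l l' φ.f id h (r - R.P r)]
    simp

/-- functoriality of the Hochschild complex in the bimodule -/
def hcN {R : DGA k} (b : Bi R R N) (b' : Bi R R N') (φ : SD.Hom N N') (h : b.IsHom b' φ) :
    SD.Hom (HC b) (HC b') where
  f := Wd.mh R.V φ.f
  D := fun w => by
    simp only [hcD_apply, map_sub]
    rw [Db_mh b.r b'.r φ h.r, om_mh b.l b'.l φ h.l]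
  P := fun w => (PW_mh R.toSD φ w).symm

@[simp] theorem hcN_nil {R : DGA k} (b : Bi R R N) (b' : Bi R R N') (φ : SD.Hom N N')
    (h : b.IsHom b' φ) (n : N.V) : (hcN b b' φ h).f (Wd.nil n) = Wd.nil (φ.f n) :=
  Wd.mh_nil φ.f n

@[simp] theorem hcN_snoc {R : DGA k} (b : Bi R R N) (b' : Bi R R N') (φ : SD.Hom N N')
    (h : b.IsHom b' φ) (w : Wd k N.V R.V) (r : R.V) :
    (hcN b b' φ h).f (Wd.snoc w r) = Wd.snoc ((hcN b b' φ h).f w) r :=
  Wd.mh_snoc φ.f w r

/-- a short exact sequence of bimodules gives one of Hochschild complexes -/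
theorem SES_hc {R : DGA k} {N'' : SD k} (b : Bi R R N) (b' : Bi R R N') (b'' : Bi R R N'')
    (φ : SD.Hom N N') (h : b.IsHom b' φ) (ψ : SD.Hom N' N'') (h' : b'.IsHom b'' ψ)
    (hs : SD.SES φ ψ) : SD.SES (hcN b b' φ h) (hcN b' b'' ψ h') := by
  have hi : Function.Injective φ.f := (injective_iff_map_eq_zero φ.f).2 hs.inj
  have hsu : Function.Surjective ψ.f := hs.surj
  obtain ⟨r, s, h1, h2, h3⟩ := Wd.exists_split hi hsu hs.zero hs.exact
  refine ⟨fun x hx => ?_, Wd.mh_surjective hsu, fun x => ?_, fun y hy => ?_⟩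
  · exact Wd.mh_injective hi (by rw [map_zero]; exact hx)
  · change Wd.mh R.V ψ.f (Wd.mh R.V φ.f x) = 0
    rw [Wd.mh_comp, Wd.mh_congr (g := 0) (fun n => hs.zero n), Wd.mh_zero]
  · refine ⟨Wd.mh R.V r y, ?_⟩
    have hy' : Wd.mh R.V ψ.f y = 0 := hy
    have h4 : Wd.mh R.V (φ.f ∘ₗ r + s ∘ₗ ψ.f) y = y := by
      rw [Wd.mh_congr (g := LinearMap.id) (fun n => h3 n), Wd.mh_id]
    rw [Wd.mh_add, ← Wd.mh_comp, ← Wd.mh_comp, hy', map_zero, add_zero] at h4
    exact h4

end

/-! ### functoriality in the algebra -/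

section

variable {R R' : DGA k} (g : DGA.NHom R R') {N : SD k}

/-- apply a map of dg algebras to the letters -/
def Wd.ml {R R' : DGA k} (g : DGA.NHom R R') (N : Type) [AddCommGroup N] [Module k N] :
    Wd k N R.V →ₗ[k] Wd k N R'.V :=
  Wd.map LinearMap.id g.f

@[simp] theorem Wd.ml_nil {R R' : DGA k} (g : DGA.NHom R R') {N : Type} [AddCommGroup N]
    [Module k N] (n : N) : Wd.ml g N (Wd.nil n) = Wd.nil n := by
  simp [Wd.ml]

@[simp] theorem Wd.ml_snoc {R R' : DGA k} (g : DGA.NHom R R') {N : Type} [AddCommGroup N]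
    [Module k N] (w : Wd k N R.V) (r : R.V) :
    Wd.ml g N (Wd.snoc w r) = Wd.snoc (Wd.ml g N w) (g.f r) := by
  simp [Wd.ml]

theorem PW_ml (w : Wd k N.V R.V) :
    PW N R'.toSD (Wd.ml g N.V w) = Wd.ml g N.V (PW N R.toSD w) := by
  induction w using Wd.induction with
  | hadd a b ha hb => simp only [map_add, ha, hb]
  | hnil n => simp
  | hsnoc w hw r => simp [hw, g.P, g.E]

theorem EW_ml (w : Wd k N.V R.V) :
    EW N R'.toSD (Wd.ml g N.V w) = Wd.ml g N.V (EW N R.toSD w) := by
  simp only [EW_apply, PW_ml, map_add, map_sub]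

theorem tl_ml (ρ' : RA R' N) (w : Wd k N.V R.V) (r : R.V) :
    tl R' ρ'.act (Wd.ml g N.V w) (g.f r) = Wd.ml g N.V (tl R (ρ'.res g).act w r) := by
  induction w using Wd.induction with
  | hadd a b ha hb => simp only [map_add, LinearMap.add_apply, ha, hb]
  | hnil n => simp [RA.res]
  | hsnoc w hw s => simp [g.mul]

theorem hd_ml {S : DGA k} (l' : LA S N) (s : S.V) (w : Wd k N.V R.V) :
    hd R' l' s (Wd.ml g N.V w) = Wd.ml g N.V (hd R l' s w) := by
  induction w using Wd.induction with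
  | hadd a b ha hb => simp only [map_add, ha, hb]
  | hnil n => simp
  | hsnoc w hw r => simp [hw]

theorem Db_ml (ρ' : RA R' N) (w : Wd k N.V R.V) :
    Db ρ' (Wd.ml g N.V w) = Wd.ml g N.V (Db (ρ'.res g) w) := by
  induction w using Wd.induction with
  | hadd a b ha hb => simp only [map_add, ha, hb]
  | hnil n => simp
  | hsnoc w hw r =>
    simp only [Wd.ml_snoc, Db_snoc, map_add, map_sub, hw, EW_ml, tl_ml g ρ', g.D]

theorem hd_res (l' : LA R' N) (r : R.V) (w : Wd k N.V R.V) :
    hd R (l'.res g) r w = hd R l' (g.f r) w := by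
  induction w using Wd.induction with
  | hadd a b ha hb => simp only [map_add, ha, hb]
  | hnil n => simp [LA.res]
  | hsnoc w hw r => simp [hw]

theorem om_ml (l' : LA R' N) (w : Wd k N.V R.V) :
    om l' (Wd.ml g N.V w) = Wd.ml g N.V (om (l'.res g) w) := by
  induction w using Wd.induction with
  | hadd a b ha hb => simp only [map_add, ha, hb]
  | hnil n => simp
  | hsnoc w _ r =>
    simp only [Wd.ml_snoc, om_snoc, map_add, EW_ml, hd_res, ← g.P, ← map_sub, hd_ml]

/-- functoriality of the Hochschild complex in the algebra, coefficients in a module over `R'` -/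
def hcRes (b : Bi R' R' N) : SD.Hom (HC (b.res g g)) (HC b) where
  f := Wd.ml g N.V
  D := fun w => by
    simp only [hcD_apply, map_sub]
    rw [Db_ml, om_ml]
    rfl
  P := fun w => (PW_ml g w).symm

@[simp] theorem hcRes_nil (b : Bi R' R' N) (n : N.V) :
    (hcRes g b).f (Wd.nil n) = Wd.nil n := Wd.ml_nil g n

@[simp] theorem hcRes_snoc (b : Bi R' R' N) (w : Wd k N.V R.V) (r : R.V) :
    (hcRes g b).f (Wd.snoc w r) = Wd.snoc ((hcRes g b).f w) (g.f r) := Wd.ml_snoc g w r

end

/-! ### the general map -/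

theorem Wd.map_eq {N N' : Type} [AddCommGroup N] [Module k N] [AddCommGroup N'] [Module k N']
    {R R' : DGA k} (f : N →ₗ[k] N') (g : DGA.NHom R R') (w : Wd k N R.V) :
    Wd.map f g.f w = Wd.ml g N' (Wd.mh R.V f w) := by
  induction w using Wd.induction with
  | hadd a b ha hb => simp only [map_add, ha, hb]
  | hnil n => simp
  | hsnoc w hw r => simp [hw]

/-- functoriality of the Hochschild complex in the algebra and in the bimodule -/
def hcMap {R R' : DGA k} {N N' : SD k} {b : Bi R R N} {b' : Bi R' R' N'} (g : DGA.NHom R R')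
    (f : SD.Hom N N') (h : Bi.IsHom b (b'.res g g) f) : SD.Hom (HC b) (HC b') where
  f := Wd.map f.f g.f
  D := fun w => by
    rw [Wd.map_eq, Wd.map_eq]
    have h1 := (hcN b (b'.res g g) f h).D w
    have h2 := (hcRes g b').D (Wd.mh R.V f.f w)
    change Wd.mh R.V f.f (hcD b w) = hcD (b'.res g g) (Wd.mh R.V f.f w) at h1
    change Wd.ml g N'.V (hcD (b'.res g g) (Wd.mh R.V f.f w))
      = hcD b' (Wd.ml g N'.V (Wd.mh R.V f.f w)) at h2
    change Wd.ml g N'.V (Wd.mh R.V f.f (hcD b w)) = hcD b' (Wd.ml g N'.V (Wd.mh R.V f.f w))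
    rw [h1, h2]
  P := fun w => by
    rw [Wd.map_eq, Wd.map_eq]
    have h1 := (hcN b (b'.res g g) f h).P w
    have h2 := (hcRes g b').P (Wd.mh R.V f.f w)
    change Wd.mh R.V f.f (PW N R.toSD w) = PW N' R.toSD (Wd.mh R.V f.f w) at h1
    change Wd.ml g N'.V (PW N' R.toSD (Wd.mh R.V f.f w))
      = PW N' R'.toSD (Wd.ml g N'.V (Wd.mh R.V f.f w)) at h2
    change Wd.ml g N'.V (Wd.mh R.V f.f (PW N R.toSD w))
      = PW N' R'.toSD (Wd.ml g N'.V (Wd.mh R.V f.f w))
    rw [h1, h2]

section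

variable {R R' : DGA k} {N N' : SD k} {b : Bi R R N} {b' : Bi R' R' N'} (g : DGA.NHom R R')
    (f : SD.Hom N N') (h : Bi.IsHom b (b'.res g g) f)

@[simp] theorem hcMap_nil (n : N.V) : (hcMap g f h).f (Wd.nil n) = Wd.nil (f.f n) :=
  Wd.map_nil f.f g.f n

@[simp] theorem hcMap_snoc (w : Wd k N.V R.V) (r : R.V) :
    (hcMap g f h).f (Wd.snoc w r) = Wd.snoc ((hcMap g f h).f w) (g.f r) :=
  Wd.map_snoc f.f g.f w r

end

/-- a map of bimodules over the identity -/
theorem Bi.IsHom.res_id {A B : DGA k} {N N' : SD k} {b : Bi A B N} {b' : Bi A B N'}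
    {f : SD.Hom N N'} (h : b.IsHom b' f) :
    b.IsHom (b'.res (DGA.NHom.id A) (DGA.NHom.id B)) f :=
  ⟨fun a n => h.l a n, fun n a => h.r n a⟩

theorem hcMap_id {R : DGA k} {N N' : SD k} {b : Bi R R N} {b' : Bi R R N'}
    (f : SD.Hom N N') (h : b.IsHom b' f) (w : Wd k N.V R.V) :
    (hcMap (DGA.NHom.id R) f h.res_id).f w = (hcN b b' f h).f w := rfl

end NC
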