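import Pool.Agent.H15.NC.HCMap

/-!
# HCQI : contractions, cones, the Hochschild complex preserves quasi-isomorphisms of bimodules
-/

set_option autoImplicit false

open scoped TensorProduct

noncomputable section

namespace NC

variable {k : Type} [Field k]

/-- an acyclic complex over a field is contractible, with an odd contraction -/
theorem SD.Acyclic.exists_contraction {N : SD k} (hN : N.Acyclic) :
    ∃ h : N.V →ₗ[k] N.V, (∀ v, N.P (h v) = h v - h (N.P v)) ∧
      ∀ v, N.D (h v) + h (N.D v) = v := by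
  obtain ⟨Q, hQ⟩ := (LinearMap.ker N.D).exists_isCompl
  let p : N.V →ₗ[k] Q := Q.projectionOnto _ hQ.symm
  -- a linear section of the differential on cycles
  have hex : ∀ v : N.V, ∃ q : Q, N.D v = 0 → N.D (q : N.V) = v := by
    intro v
    by_cases hv : N.D v = 0
    · obtain ⟨y, hy⟩ := hN v hv
      have hyq : ∃ q : Q, N.D (q : N.V) = N.D y := by
        have hy' : y ∈ LinearMap.ker N.D ⊔ Q := by rw [hQ.sup_eq_top]; trivial
        obtain ⟨a, ha, b, hb, hab⟩ := Submodule.mem_sup.1 hy'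
        refine ⟨⟨b, hb⟩, ?_⟩
        rw [← hab, map_add, LinearMap.mem_ker.1 ha, zero_add]
      obtain ⟨q, hq⟩ := hyq
      exact ⟨q, fun _ => by rw [hq, hy]⟩
    · exact ⟨0, fun h => absurd h hv⟩
  -- D restricted to Q is injective
  have hinj : ∀ q : Q, N.D (q : N.V) = 0 → q = 0 := by
    intro q hq
    have h1 : (q : N.V) ∈ LinearMap.ker N.D ⊓ Q := ⟨hq, q.2⟩
    rw [hQ.inf_eq_bot] at h1
    exact Subtype.ext h1
  obtain ⟨K, hK⟩ : ∃ K : Submodule k N.V, K = LinearMap.ker N.D := ⟨_, rfl⟩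
  let DQ : Q →ₗ[k] LinearMap.ker N.D :=
    (N.D.domRestrict Q).codRestrict _ (fun q => N.DD (q : N.V))
  have hDQ : ∀ q : Q, ((DQ q : LinearMap.ker N.D) : N.V) = N.D (q : N.V) := fun _ => rfl
  have hbij : Function.Bijective DQ := by
    constructor
    · rw [← LinearMap.ker_eq_bot, LinearMap.ker_eq_bot']
      intro q hq
      refine hinj q ?_
      rw [← hDQ, hq]; rfl
    · intro v
      obtain ⟨q, hq⟩ := hex v.1
      exact ⟨q, Subtype.ext (hq v.2)⟩
  let e : Q ≃ₗ[k] LinearMap.ker N.D := LinearEquiv.ofBijective DQ hbij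
  have he : ∀ v : LinearMap.ker N.D, N.D ((e.symm v : Q) : N.V) = v := by
    intro v
    have : DQ (e.symm v) = v := e.apply_symm_apply v
    rw [← hDQ, this]
  let pk : N.V →ₗ[k] LinearMap.ker N.D := (LinearMap.ker N.D).projectionOnto _ hQ
  let h : N.V →ₗ[k] N.V := Q.subtype ∘ₗ e.symm.toLinearMap ∘ₗ pk
  have hpk : ∀ v : N.V, N.D v = 0 → ((pk v : LinearMap.ker N.D) : N.V) = v := by
    intro v hv
    have := Submodule.projectionOnto_apply_left hQ (⟨v, hv⟩ : LinearMap.ker N.D)
    exact congrArg Subtype.val this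
  have hkey : ∀ v, N.D (h v) + h (N.D v) = v := by
    intro v
    have h1 : N.D (h v) = (pk v : N.V) := he (pk v)
    have h2 : N.D (h (N.D v)) = N.D v := by
      have : N.D (h (N.D v)) = (pk (N.D v) : N.V) := he (pk (N.D v))
      rw [this, hpk _ (N.DD v)]
    -- v - h (D v) is a cycle
    have h3 : N.D (v - h (N.D v)) = 0 := by rw [map_sub, h2, sub_self]
    have h4 : ((pk (h (N.D v)) : LinearMap.ker N.D) : N.V) = 0 := by
      have h5 : h (N.D v) ∈ Q := (e.symm (pk (N.D v))).2
      have := Submodule.projectionOnto_apply_right hQ (⟨h (N.D v), h5⟩ : Q)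
      exact congrArg Subtype.val this
    have h6 := hpk _ h3
    rw [map_sub] at h6
    have h7 : ((pk v : LinearMap.ker N.D) : N.V) - ((pk (h (N.D v)) : LinearMap.ker N.D) : N.V)
        = v - h (N.D v) := h6
    rw [h4, sub_zero] at h7
    rw [h1, h7]; abel
  -- the odd part of h
  refine ⟨(LinearMap.id - N.P) ∘ₗ h ∘ₗ N.P + N.P ∘ₗ h ∘ₗ (LinearMap.id - N.P), ?_, ?_⟩
  · intro v
    simp only [LinearMap.add_apply, LinearMap.comp_apply, LinearMap.sub_apply, LinearMap.id_apply,
      map_add, map_sub, N.PP]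
    abel
  · intro v
    have hPD : N.P (N.D v) = N.D (v - N.P v) := by rw [map_sub, N.DP]; abel
    have hQD : N.D v - N.P (N.D v) = N.D (N.P v) := by rw [N.DP]
    have e1 := congrArg N.P (hkey (N.P v))
    have e2 := hkey (v - N.P v)
    have e3 := congrArg N.P e2
    rw [map_add] at e1 e3
    rw [N.PP] at e1
    rw [map_sub N.P, N.PP, sub_self] at e3
    have g1 : ((LinearMap.id - N.P) ∘ₗ h ∘ₗ N.P + N.P ∘ₗ h ∘ₗ (LinearMap.id - N.P) :
        N.V →ₗ[k] N.V) v = h (N.P v) - N.P (h (N.P v)) + N.P (h (v - N.P v)) := rfl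
    have g2 : ((LinearMap.id - N.P) ∘ₗ h ∘ₗ N.P + N.P ∘ₗ h ∘ₗ (LinearMap.id - N.P) :
        N.V →ₗ[k] N.V) (N.D v) = h (N.D (v - N.P v)) - N.P (h (N.D (v - N.P v))) + N.P (h (N.D (N.P v))) := by
      change h (N.P (N.D v)) - N.P (h (N.P (N.D v))) + N.P (h (N.D v - N.P (N.D v))) = _
      rw [hQD, hPD]
    rw [g1, g2, map_add N.D, map_sub N.D (h (N.P v)), N.DP (h (N.P v)), N.DP (h (v - N.P v))]
    have key : N.D (h (N.P v)) - (N.D (h (N.P v)) - N.P (N.D (h (N.P v))))
        + (N.D (h (v - N.P v)) - N.P (N.D (h (v - N.P v))))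
        + (h (N.D (v - N.P v)) - N.P (h (N.D (v - N.P v))) + N.P (h (N.D (N.P v))))
        = (N.P (N.D (h (N.P v))) + N.P (h (N.D (N.P v))))
          + (N.D (h (v - N.P v)) + h (N.D (v - N.P v)))
          - (N.P (N.D (h (v - N.P v))) + N.P (h (N.D (v - N.P v)))) := by abel
    rw [key, e1, e2, e3]
    abel

/-! ### the length filtration -/

namespace Wd

variable {N N' R : Type} [AddCommGroup N] [Module k N] [AddCommGroup N'] [Module k N']
  [AddCommGroup R] [Module k R]

/-- words of length less than `n` -/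
def fl (k : Type) [Field k] (N R : Type) [AddCommGroup N] [Module k N]
    [AddCommGroup R] [Module k R] : ℕ → Submodule k (Wd k N R)
  | 0 => ⊥
  | n + 1 => len k N R n

theorem fl_le_len (n : ℕ) : fl k N R n ≤ len k N R n := by
  cases n with
  | zero => exact bot_le
  | succ n => exact len_mono n

theorem snoc_mem_fl {n : ℕ} {w : Wd k N R} (h : w ∈ fl k N R n) (r : R) :
    snoc w r ∈ fl k N R (n + 1) := by
  cases n with
  | zero =>
    have hw : w = 0 := h
    rw [hw, map_zero, LinearMap.zero_apply]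
    exact Submodule.zero_mem _
  | succ n => exact snoc_mem_len h r

/-- induction for a linear condition on words of length at most `n + 1` -/
theorem len_succ_le {n : ℕ} {p : Submodule k (Wd k N R)} (h0 : ∀ a : N, nil a ∈ p)
    (h1 : ∀ w ∈ len k N R n, ∀ r : R, snoc w r ∈ p) : len k N R (n + 1) ≤ p := by
  apply sup_le
  · rintro _ ⟨a, rfl⟩
    exact h0 a
  · rw [Submodule.map₂_le]
    intro w hw r _
    exact h1 w hw r

theorem len_zero_le {p : Submodule k (Wd k N R)} (h0 : ∀ a : N, nil a ∈ p) :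
    len k N R 0 ≤ p := by
  rintro _ ⟨a, rfl⟩
  exact h0 a

theorem mh_mem_len (f : N →ₗ[k] N') (n : ℕ) {w : Wd k N R} (h : w ∈ len k N R n) :
    mh R f w ∈ len k N' R n := by
  induction n generalizing w with
  | zero =>
    refine len_zero_le (p := (len k N' R 0).comap (mh R f)) (fun a => ?_) h
    rw [Submodule.mem_comap, mh_nil]
    exact nil_mem_len 0 _
  | succ n ih =>
    refine len_succ_le (p := (len k N' R (n + 1)).comap (mh R f)) (fun a => ?_)
      (fun v hv r => ?_) h
    · rw [Submodule.mem_comap, mh_nil]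
      exact nil_mem_len _ _
    · rw [Submodule.mem_comap, mh_snoc]
      exact snoc_mem_len (ih hv) r

end Wd

theorem PW_mem_len (N R : SD k) (n : ℕ) {w : Wd k N.V R.V} (h : w ∈ Wd.len k N.V R.V n) :
    PW N R w ∈ Wd.len k N.V R.V n := by
  induction n generalizing w with
  | zero =>
    refine Wd.len_zero_le (p := (Wd.len k N.V R.V 0).comap (PW N R)) (fun a => ?_) h
    rw [Submodule.mem_comap, PW_nil]
    exact Wd.nil_mem_len 0 _
  | succ n ih =>
    refine Wd.len_succ_le (p := (Wd.len k N.V R.V (n + 1)).comap (PW N R)) (fun a => ?_)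
      (fun v hv r => ?_) h
    · rw [Submodule.mem_comap, PW_nil]
      exact Wd.nil_mem_len _ _
    · rw [Submodule.mem_comap, PW_snoc]
      exact Submodule.sub_mem _ (Wd.snoc_mem_len hv _) (Wd.snoc_mem_len (ih hv) _)

theorem EW_mem_lenH (N R : SD k) (n : ℕ) {w : Wd k N.V R.V} (h : w ∈ Wd.len k N.V R.V n) :
    EW N R w ∈ Wd.len k N.V R.V n := by
  rw [EW_apply]
  exact Submodule.sub_mem _ (Submodule.add_mem _ (PW_mem_len N R n h) (PW_mem_len N R n h)) h

theorem tl_mem_len {N : Type} [AddCommGroup N] [Module k N] (R : DGA k)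
    (ρ : N →ₗ[k] R.V →ₗ[k] N) (n : ℕ) {w : Wd k N R.V} (h : w ∈ Wd.len k N R.V n) (r : R.V) :
    tl R ρ w r ∈ Wd.len k N R.V n := by
  cases n with
  | zero =>
    refine Wd.len_zero_le (p := (Wd.len k N R.V 0).comap ((tl R ρ).flip r)) (fun a => ?_) h
    rw [Submodule.mem_comap, LinearMap.flip_apply, tl_nil]
    exact Wd.nil_mem_len 0 _
  | succ n =>
    refine Wd.len_succ_le (p := (Wd.len k N R.V (n + 1)).comap ((tl R ρ).flip r)) (fun a => ?_)
      (fun v hv s => ?_) h
    · rw [Submodule.mem_comap, LinearMap.flip_apply, tl_nil]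
      exact Wd.nil_mem_len _ _
    · rw [Submodule.mem_comap, LinearMap.flip_apply, tl_snoc]
      exact Wd.snoc_mem_len hv _

theorem hd_mem_len {R S : DGA k} {N : SD k} (l : LA S N) (n : ℕ) {w : Wd k N.V R.V}
    (h : w ∈ Wd.len k N.V R.V n) (s : S.V) : hd R l s w ∈ Wd.len k N.V R.V n :=
  Wd.mh_mem_len (l.act s) n h

/-! ### coefficients in an acyclic bimodule -/

section acyclic

variable {N : SD k} {R : DGA k} (h : N.V →ₗ[k] N.V) (hP : ∀ v, N.P (h v) = h v - h (N.P v))

include hP in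
theorem PW_mh_odd (R : SD k) (w : Wd k N.V R.V) :
    PW N R (Wd.mh R.V h w) = Wd.mh R.V h w - Wd.mh R.V h (PW N R w) := by
  induction w using Wd.induction with
  | hadd a b ha hb => simp only [map_add, ha, hb]; abel
  | hnil n => simp [hP]
  | hsnoc w hw r =>
    simp only [Wd.mh_snoc, PW_snoc, hw, map_sub, LinearMap.sub_apply, SD.E_apply, map_add]
    abel

include hP in
theorem EW_mh_odd (R : SD k) (w : Wd k N.V R.V) :
    EW N R (Wd.mh R.V h w) = - Wd.mh R.V h (EW N R w) := by
  simp only [EW_apply, PW_mh_odd h hP, map_add, map_sub]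
  abel

variable (hD : ∀ v, N.D (h v) + h (N.D v) = v)

include hP hD in
theorem Db_contr (ρ : RA R N) (n : ℕ) {w : Wd k N.V R.V} (hw : w ∈ Wd.len k N.V R.V n) :
    Db ρ (Wd.mh R.V h w) + Wd.mh R.V h (Db ρ w) - w ∈ Wd.fl k N.V R.V n := by
  have h0 : ∀ a : N.V, Db ρ (Wd.mh R.V h (Wd.nil a)) + Wd.mh R.V h (Db ρ (Wd.nil a))
      - Wd.nil a = 0 := by
    intro a
    rw [Wd.mh_nil, Db_nil, Db_nil, Wd.mh_nil, ← map_add, hD, sub_self]
  let T : Wd k N.V R.V →ₗ[k] Wd k N.V R.V :=
    Db ρ ∘ₗ Wd.mh R.V h + Wd.mh R.V h ∘ₗ Db ρ - LinearMap.id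
  have hT : ∀ w, T w = Db ρ (Wd.mh R.V h w) + Wd.mh R.V h (Db ρ w) - w := fun _ => rfl
  induction n generalizing w with
  | zero =>
    refine Wd.len_zero_le (p := (Wd.fl k N.V R.V 0).comap T) (fun a => ?_) hw
    rw [Submodule.mem_comap, hT, h0]
    exact Submodule.zero_mem _
  | succ n ih =>
    refine Wd.len_succ_le (p := (Wd.fl k N.V R.V (n + 1)).comap T) (fun a => ?_)
      (fun v hv r => ?_) hw
    · rw [Submodule.mem_comap, hT, h0]
      exact Submodule.zero_mem _
    · rw [Submodule.mem_comap, hT]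
      have e : Db ρ (Wd.mh R.V h (Wd.snoc v r)) + Wd.mh R.V h (Db ρ (Wd.snoc v r))
          - Wd.snoc v r
          = Wd.snoc (Db ρ (Wd.mh R.V h v) + Wd.mh R.V h (Db ρ v) - v) r
            + (tl R ρ.act (EW N R.toSD (Wd.mh R.V h v)) r
              + Wd.mh R.V h (tl R ρ.act (EW N R.toSD v) r)) := by
        simp only [Wd.mh_snoc, Db_snoc, map_add, map_sub, LinearMap.add_apply,
          LinearMap.sub_apply, EW_mh_odd h hP, map_neg, LinearMap.neg_apply]
        abel
      rw [e]
      refine Submodule.add_mem _ (Wd.snoc_mem_fl (ih hv) r) (Submodule.add_mem _ ?_ ?_)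
      · exact tl_mem_len R ρ.act n (EW_mem_lenH _ _ n (Wd.mh_mem_len h n hv)) r
      · exact Wd.mh_mem_len h n (tl_mem_len R ρ.act n (EW_mem_lenH _ _ n hv) r)

theorem om_mem_fl (l : LA R N) (n : ℕ) {w : Wd k N.V R.V} (hw : w ∈ Wd.len k N.V R.V n) :
    om l w ∈ Wd.fl k N.V R.V n := by
  cases n with
  | zero =>
    refine Wd.len_zero_le (p := (Wd.fl k N.V R.V 0).comap (om l)) (fun a => ?_) hw
    rw [Submodule.mem_comap, om_nil]
    exact Submodule.zero_mem _
  | succ n =>
    refine Wd.len_succ_le (p := (Wd.fl k N.V R.V (n + 1)).comap (om l)) (fun a => ?_)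
      (fun v hv r => ?_) hw
    · rw [Submodule.mem_comap, om_nil]
      exact Submodule.zero_mem _
    · rw [Submodule.mem_comap, om_snoc]
      exact Submodule.add_mem _ (hd_mem_len l n (EW_mem_lenH _ _ n hv) _) (hd_mem_len l n hv _)

include hP hD in
theorem hcD_contr (b : Bi R R N) (n : ℕ) {w : Wd k N.V R.V} (hw : w ∈ Wd.len k N.V R.V n) :
    hcD b (Wd.mh R.V h w) + Wd.mh R.V h (hcD b w) - w ∈ Wd.fl k N.V R.V n := by
  have e : hcD b (Wd.mh R.V h w) + Wd.mh R.V h (hcD b w) - w
      = (Db b.r (Wd.mh R.V h w) + Wd.mh R.V h (Db b.r w) - w)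
        - (om b.l (Wd.mh R.V h w) + Wd.mh R.V h (om b.l w)) := by
    simp only [hcD_apply, map_sub]
    abel
  rw [e]
  refine Submodule.sub_mem _ (Db_contr h hP hD b.r n hw) (Submodule.add_mem _ ?_ ?_)
  · exact om_mem_fl b.l n (Wd.mh_mem_len h n hw)
  · have h1 := om_mem_fl b.l n hw
    cases n with
    | zero =>
      have h2 : om b.l w = 0 := h1
      rw [h2, map_zero]
      exact Submodule.zero_mem _
    | succ n => exact Wd.mh_mem_len h n h1

end acyclic

/-- the Hochschild complex of an acyclic bimodule is acyclic -/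
theorem hc_acyclic {N : SD k} {R : DGA k} (b : Bi R R N) (hN : N.Acyclic) :
    (HC b).Acyclic := by
  obtain ⟨h, hP, hD⟩ := hN.exists_contraction
  have key : ∀ n : ℕ, ∀ w : Wd k N.V R.V, w ∈ Wd.len k N.V R.V n → hcD b w = 0 →
      ∃ y, hcD b y = w := by
    intro n
    induction n with
    | zero =>
      intro w hw h0
      have h1 := hcD_contr h hP hD b 0 hw
      have h2 : hcD b (Wd.mh R.V h w) + Wd.mh R.V h (hcD b w) - w = 0 := h1
      rw [h0, map_zero, add_zero, sub_eq_zero] at h2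
      exact ⟨_, h2⟩
    | succ n ih =>
      intro w hw h0
      have h1 := hcD_contr h hP hD b (n + 1) hw
      rw [h0, map_zero, add_zero] at h1
      have h3 : hcD b (hcD b (Wd.mh R.V h w) - w) = 0 := by
        rw [map_sub, h0, sub_zero]
        exact (HC b).DD _
      obtain ⟨y, hy⟩ := ih _ h1 h3
      refine ⟨Wd.mh R.V h w - y, ?_⟩
      rw [map_sub, hy]
      abel
  intro w hw
  obtain ⟨n, hn⟩ := Wd.exists_mem_len w
  exact key n w hn hw

end NC
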