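import Pool.Agent.H94.NC.Bridge
import Pool.Agent.H94.NC.CycDim
import Pool.Agent.H16.NC.HC

/-!
# Zdim : bound of the dimension of `HP₀` from the even part of the Hochschild homology
-/

set_option autoImplicit false

noncomputable section

namespace NC

variable {k : Type} [Field k]

theorem PW_of_EW {N R : SD k} (h2 : (2 : k) ≠ 0) (w : Wd k N.V R.V) (h : EW N R w = w) :
    PW N R w = w := by
  rw [EW_apply] at h
  have h5 : (2 : k) • (PW N R w) = (2 : k) • w := by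
    rw [two_smul, two_smul]
    exact sub_eq_iff_eq_add.1 h
  have h6 := congrArg (fun w => (2 : k)⁻¹ • w) h5
  simpa [smul_smul, inv_mul_cancel₀ h2] using h6

theorem PW_of_even_degree (A : ZDGA k) (h2 : (2 : k) ≠ 0) {m : ℤ} (hm : Even m) (v : A.cyc.V)
    (hv : v ∈ A.cyc.gr m) : (HC A.toDGA.diag).P v = v := by
  have h1 := ew_gr A v hv
  have h3 : CycMod.sn k m = 1 := if_pos hm
  rw [h3, one_smul] at h1
  exact PW_of_EW h2 v h1

/-- finite dimensional total homology -/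
theorem ZDGA.finite_HT (A : ZDGA k) (hfin : (HC A.toDGA.diag).FinH) :
    FiniteDimensional k A.cyc.HT := by
  classical
  have hfin' : ∃ s : Finset A.cyc.V, ∀ x : A.cyc.V, A.cyc.b x = 0 →
      ∃ y : A.cyc.V, y ∈ Submodule.span k (s : Set A.cyc.V) ∧
        ∃ z : A.cyc.V, A.cyc.b z = x - y := by
    obtain ⟨s, hs⟩ := hfin
    refine ⟨s, fun x hx => ?_⟩
    obtain ⟨y, hy, z, hz⟩ := hs x ((A.cyc_b x).symm.trans hx)
    exact ⟨y, hy, z, (A.cyc_b z).trans hz⟩
  obtain ⟨s, hs⟩ := hfin'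
  let F : Submodule k A.cyc.V := Submodule.span k (s : Set A.cyc.V)
  have hF : FiniteDimensional k F := FiniteDimensional.span_finset k s
  let F' : Submodule k A.cyc.V := F ⊓ LinearMap.ker A.cyc.b
  have hF' : FiniteDimensional k F' := Submodule.finiteDimensional_of_le (inf_le_left : F' ≤ F)
  let φ : F' →ₗ[k] A.cyc.HT :=
    (Submodule.mkQ ((LinearMap.range A.cyc.b).comap (LinearMap.ker A.cyc.b).subtype)) ∘ₗ
      Submodule.inclusion (inf_le_right : F' ≤ LinearMap.ker A.cyc.b)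
  refine Module.Finite.of_surjective φ ?_
  intro x
  obtain ⟨v, hv, rfl⟩ := A.cyc.tcls_surj x
  obtain ⟨y, hy, z, hz'⟩ := hs v hv
  have hby : A.cyc.b y = 0 := by
    have e : A.cyc.b (v - y) = 0 := by rw [← hz', A.cyc.bb]
    rw [map_sub, hv, zero_sub, neg_eq_zero] at e
    exact e
  refine ⟨⟨y, hy, hby⟩, ?_⟩
  change A.cyc.tcls y hby = A.cyc.tcls v hv
  have e : A.cyc.b (v - y) = 0 := by rw [map_sub, hv, hby, sub_zero]
  have h0 : A.cyc.tcls (v - y) e = 0 := (A.cyc.tcls_eq_zero _ e).2 ⟨z, hz'⟩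
  have h1 : A.cyc.tcls (v - y) e = A.cyc.tcls v hv - A.cyc.tcls y hby := rfl
  rw [h1] at h0
  exact (sub_eq_zero.1 h0).symm

theorem ZDGA.dim_bound (A : ZDGA k) (h2 : (2 : k) ≠ 0) (hfin : (HC A.toDGA.diag).FinH)
    (a b : (HC A.toDGA.diag).V) (ha : (HC A.toDGA.diag).D a = 0)
    (hb : (HC A.toDGA.diag).D b = 0)
    (h : ∀ x, (HC A.toDGA.diag).P x = x → (HC A.toDGA.diag).D x = 0 →
      ∃ c d : k, (HC A.toDGA.diag).Hml x (c • a + d • b)) :
    FiniteDimensional k A.cyc.HT ∧ FiniteDimensional k (A.HP 0) ∧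
      Module.finrank k (A.HP 0) ≤ 2 := by
  classical
  have hT := A.finite_HT hfin
  refine ⟨hT, ?_⟩
  obtain ⟨hfd, lo, N, hlo, hhi⟩ := CycMod.HH_fin (X := A.cyc) A.cyc_internal
  have h' : ∃ a b : A.cyc.V, A.cyc.b a = 0 ∧ A.cyc.b b = 0 ∧ ∀ x : A.cyc.V,
      (HC A.toDGA.diag).P x = x → A.cyc.b x = 0 →
      ∃ c d : k, ∃ z : A.cyc.V, A.cyc.b z = x - (c • a + d • b) := by
    refine ⟨a, b, (A.cyc_b a).trans ha, (A.cyc_b b).trans hb, fun x hx hx' => ?_⟩
    obtain ⟨c, d, z, hz⟩ := h x hx ((A.cyc_b x).symm.trans hx')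
    exact ⟨c, d, z, (A.cyc_b z).trans hz⟩
  clear ha hb h
  obtain ⟨a, b, ha', hb', h⟩ := h'
  let Z : Submodule k A.cyc.HT := Submodule.span k {A.cyc.tcls a ha', A.cyc.tcls b hb'}
  have hZf : FiniteDimensional k Z := FiniteDimensional.span_of_finite k (Set.toFinite _)
  have hZ : ∀ m, Even m → ∀ x : A.cyc.HH m, A.cyc.hinc m x ∈ Z := by
    intro m hm x
    obtain ⟨v, hv, rfl⟩ := A.cyc.hcls_surj x
    rw [A.cyc.hinc_hcls]
    have hvb : A.cyc.b v = 0 := hv.1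
    obtain ⟨c, d, z, hz⟩ := h v (PW_of_even_degree A h2 hm v hv.2) hvb
    have e : A.cyc.b (v - (c • a + d • b)) = 0 := by
      rw [map_sub, map_add, map_smul, map_smul, ha', hb', hvb, smul_zero, smul_zero, add_zero,
        sub_zero]
    have h0 : A.cyc.tcls (v - (c • a + d • b)) e = 0 :=
      (A.cyc.tcls_eq_zero _ e).2 ⟨z, hz⟩
    have h1 : A.cyc.tcls (v - (c • a + d • b)) e = A.cyc.tcls v hv.1
        - (c • A.cyc.tcls a ha' + d • A.cyc.tcls b hb') := rfl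
    rw [h1] at h0
    rw [sub_eq_zero.1 h0]
    have m1 : A.cyc.tcls a ha' ∈ ({A.cyc.tcls a ha', A.cyc.tcls b hb'} : Set A.cyc.HT) := by simp
    have m2 : A.cyc.tcls b hb' ∈ ({A.cyc.tcls a ha', A.cyc.tcls b hb'} : Set A.cyc.HT) := by simp
    exact Submodule.add_mem _ (Submodule.smul_mem _ _ (Submodule.subset_span m1))
      (Submodule.smul_mem _ _ (Submodule.subset_span m2))
  obtain ⟨h3, h4⟩ := CycMod.HP_dim_le A.cyc A.cyc_Bex lo hlo hfd A.cyc_internal N hhi Z hZ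
  refine ⟨h3, h4.trans ?_⟩
  have h5 := finrank_span_finset_le_card (R := k)
    ({A.cyc.tcls a ha', A.cyc.tcls b hb'} : Finset A.cyc.HT)
  rw [Finset.coe_insert, Finset.coe_singleton] at h5
  exact h5.trans Finset.card_le_two

end NC
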